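import Pool.Agent.Helper7.LY.Model

/-!
Coefficients of elements of localizations of rings of power series.
-/

set_option autoImplicit false
set_option linter.unusedSectionVars false

namespace Pool.Agent.Helper7.LY

section phi

variable {n : ℕ} (Λ K : Type) [CommRing Λ] [Field K] [Algebra Λ K]

/-- The inclusion of the exponents. -/
def expo : (Fin n →₀ ℕ) →+ (Fin n → ℤ) where
  toFun b i := (b i : ℤ)
  map_zero' := by
    funext i
    simp
  map_add' a b := by
    funext i
    simp

lemma expo_apply (b : Fin n →₀ ℕ) (i : Fin n) : expo b i = (b i : ℤ) := rfl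

lemma nsmul_expo (N : ℕ) (b : Fin n →₀ ℕ) (i : Fin n) :
    (N • expo b) i = (N : ℤ) * (b i : ℤ) := by
  rw [Pi.smul_apply, expo_apply, nsmul_eq_mul]

lemma expo_inj : Function.Injective (expo (n := n)) := by
  intro a b h
  ext i
  have := congrFun h i
  simp only [expo_apply] at this
  exact_mod_cast this

lemma expo_le (a b : Fin n →₀ ℕ) : expo a ≤ expo b ↔ a ≤ b := by
  constructor
  · intro h i
    have := h i
    simp only [expo_apply] at this
    exact_mod_cast this
  · intro h i
    simp only [expo_apply]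
    exact_mod_cast h i

lemma exists_expo {a : Fin n → ℤ} (h : ∀ i, 0 ≤ a i) : ∃ b : Fin n →₀ ℕ, expo b = a := by
  refine ⟨Finsupp.equivFunOnFinite.symm fun i => (a i).toNat, ?_⟩
  funext i
  simp [expo_apply, h i]

/-- The embedding of power series into Laurent series. -/
noncomputable def phi : MvPowerSeries (Fin n) Λ →+* HahnSeries (Fin n → ℤ) K :=
  (HahnSeries.embDomainRingHom expo expo_inj expo_le).comp
    ((HahnSeries.toMvPowerSeries (R := K)).symm.toRingHom.comp (MvPowerSeries.map (algebraMap Λ K)))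

variable {Λ}

lemma phi_coeff (s : MvPowerSeries (Fin n) Λ) (b : Fin n →₀ ℕ) :
    (phi Λ K s).coeff (expo b) = algebraMap Λ K (MvPowerSeries.coeff b s) := by
  unfold phi
  simp only [RingHom.comp_apply, HahnSeries.embDomainRingHom_apply]
  exact (HahnSeries.embDomain_coeff (f := ⟨⟨expo, expo_inj⟩, expo_le _ _⟩)).trans
    (MvPowerSeries.coeff_map _ _ _)

lemma phi_coeff_neg (s : MvPowerSeries (Fin n) Λ) (a : Fin n → ℤ) (i : Fin n) (h : a i < 0) :
    (phi Λ K s).coeff a = 0 := by
  unfold phi
  simp only [RingHom.comp_apply, HahnSeries.embDomainRingHom_apply]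
  apply HahnSeries.embDomain_of_notMem_range
  rintro ⟨b, hb⟩
  have := congrFun hb i
  change (b i : ℤ) = a i at this
  omega

lemma phi_injective (hK : Function.Injective (algebraMap Λ K)) :
    Function.Injective (phi (n := n) Λ K) := by
  rw [injective_iff_map_eq_zero]
  intro s hs
  ext b
  apply hK
  rw [← phi_coeff, hs]
  simp

lemma phi_monomial (e : Fin n →₀ ℕ) (l : Λ) :
    phi Λ K (MvPowerSeries.monomial e l) = HahnSeries.single (expo e) (algebraMap Λ K l) := by
  classical
  ext a
  by_cases h : ∀ i, 0 ≤ a i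
  · obtain ⟨b, rfl⟩ := exists_expo h
    rw [phi_coeff, MvPowerSeries.coeff_monomial, HahnSeries.coeff_single]
    by_cases hb : b = e
    · subst hb
      simp
    · rw [if_neg hb, if_neg fun h => hb (expo_inj h), map_zero]
  · push Not at h
    obtain ⟨i, hi⟩ := h
    rw [phi_coeff_neg K _ a i hi, HahnSeries.coeff_single_of_ne]
    rintro rfl
    simp only [expo_apply] at hi
    omega

variable {K}

/-- The data of an element `m` which becomes a monomial. -/
structure Mono (m : MvPowerSeries (Fin n) Λ) (e : Fin n →₀ ℕ) (u : K) : Prop where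
  eq : phi Λ K m = HahnSeries.single (expo e) u
  ne : u ≠ 0

lemma single_mul_inv (e : Fin n → ℤ) {u : K} (hu : u ≠ 0) :
    HahnSeries.single e u * HahnSeries.single (-e) u⁻¹ = 1 := by
  rw [HahnSeries.single_mul_single, add_neg_cancel, mul_inv_cancel₀ hu]
  rfl

lemma Mono.isUnit {m : MvPowerSeries (Fin n) Λ} {e : Fin n →₀ ℕ} {u : K} (h : Mono m e u) :
    IsUnit (phi Λ K m) := by
  rw [h.eq]
  exact IsUnit.of_mul_eq_one _ (single_mul_inv _ h.ne)

/-- The embedding of the localization into Laurent series. -/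
noncomputable def phiLoc {m : MvPowerSeries (Fin n) Λ} (h : IsUnit (phi Λ K m)) :
    Localization.Away m →+* HahnSeries (Fin n → ℤ) K :=
  IsLocalization.Away.lift m h

lemma phiLoc_algebraMap {m : MvPowerSeries (Fin n) Λ} (h : IsUnit (phi Λ K m))
    (s : MvPowerSeries (Fin n) Λ) : phiLoc h (algebraMap _ _ s) = phi Λ K s :=
  IsLocalization.Away.lift_eq m h s

lemma phiLoc_smul {m : MvPowerSeries (Fin n) Λ} (h : IsUnit (phi Λ K m))
    (s : MvPowerSeries (Fin n) Λ) (l : Localization.Away m) :
    phiLoc h (s • l) = phi Λ K s * phiLoc h l := by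
  rw [Algebra.smul_def, map_mul, phiLoc_algebraMap]

lemma phiLoc_injective (hK : Function.Injective (algebraMap Λ K))
    {m : MvPowerSeries (Fin n) Λ} (h : IsUnit (phi Λ K m)) :
    Function.Injective (phiLoc h) := by
  rw [injective_iff_map_eq_zero]
  intro l hl
  obtain ⟨⟨s, t⟩, hst⟩ := IsLocalization.surj (Submonoid.powers m) l
  have h1 : phi Λ K s = 0 := by
    rw [← phiLoc_algebraMap h, ← hst, map_mul, hl, zero_mul]
  have h2 : s = 0 := phi_injective K hK (by rw [h1, map_zero])
  have h3 : IsUnit (algebraMap _ (Localization.Away m) (t : MvPowerSeries (Fin n) Λ)) :=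
    IsLocalization.map_units _ t
  rw [h2, map_zero] at hst
  exact (h3.mul_left_eq_zero).1 hst

lemma Mono.mem_range {m : MvPowerSeries (Fin n) Λ} {e : Fin n →₀ ℕ} {u : K} (h : Mono m e u) :
    u ∈ (algebraMap Λ K).range := by
  refine ⟨MvPowerSeries.coeff e m, ?_⟩
  rw [← phi_coeff, h.eq, HahnSeries.coeff_single_same]

lemma Mono.pow {m : MvPowerSeries (Fin n) Λ} {e : Fin n →₀ ℕ} {u : K} (h : Mono m e u) (N : ℕ) :
    phi Λ K m ^ N = HahnSeries.single (N • expo e) (u ^ N) := by
  rw [h.eq, HahnSeries.single_pow]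

/-- The description of the coefficients of the elements of a localization. -/
lemma mem_range_phiLoc {m : MvPowerSeries (Fin n) Λ} {e : Fin n →₀ ℕ} {u : K} (h : Mono m e u)
    (f : (Fin n → ℤ) → K) :
    (∃ l : Localization.Away m, (phiLoc h.isUnit l).coeff = f) ↔
      ∃ N : ℕ, (∀ a, f a ≠ 0 → ∀ i, -(N : ℤ) ≤ a i ∧ (e i = 0 → 0 ≤ a i)) ∧
        ∀ a, u ^ N * f a ∈ (algebraMap Λ K).range := by
  constructor
  · rintro ⟨l, rfl⟩
    obtain ⟨⟨s, ⟨_, N, rfl⟩⟩, hst⟩ := IsLocalization.surj (Submonoid.powers m) l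
    have h1 : phiLoc h.isUnit l * HahnSeries.single (N • expo e) (u ^ N) = phi Λ K s := by
      have := congrArg (phiLoc h.isUnit) hst
      rw [map_mul, phiLoc_algebraMap, phiLoc_algebraMap] at this
      simp only [map_pow] at this
      rw [h.pow] at this
      exact this
    have h2 : ∀ a, (phiLoc h.isUnit l).coeff a * u ^ N = (phi Λ K s).coeff (a + N • expo e) := by
      intro a
      rw [← h1, HahnSeries.coeff_mul_single, add_sub_cancel_right]
    refine ⟨N * (1 + ∑ i, e i), fun a ha i => ?_, fun a => ?_⟩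
    · have h3 : 0 ≤ (a + N • expo e) i := by
        by_contra hc
        have h4 := phi_coeff_neg K s _ i (not_le.1 hc)
        rw [← h2] at h4
        exact ha ((mul_eq_zero.1 h4).resolve_right (pow_ne_zero _ h.ne))
      simp only [Pi.add_apply, nsmul_expo] at h3
      have h5 : e i ≤ ∑ i, e i :=
        Finset.single_le_sum (f := fun i => e i) (fun _ _ => Nat.zero_le _) (Finset.mem_univ i)
      constructor
      · have h6 : (N : ℤ) * (e i : ℤ) ≤ ((N * (1 + ∑ i, e i) : ℕ) : ℤ) := by
          have : N * e i ≤ N * (1 + ∑ i, e i) := Nat.mul_le_mul_left _ (by omega)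
          exact_mod_cast this
        omega
      · intro h0
        rw [h0] at h3
        simpa using h3
    · obtain ⟨N', hN'⟩ : ∃ N', N * (1 + ∑ i, e i) = N + N' := ⟨N * ∑ i, e i, by ring⟩
      rw [hN', pow_add, mul_comm (u ^ N), mul_assoc, mul_comm (u ^ N), h2]
      refine Subring.mul_mem _ (Subring.pow_mem _ h.mem_range _) ?_
      by_cases h7 : ∀ i, 0 ≤ (a + N • expo e) i
      · obtain ⟨b, hb⟩ := exists_expo h7
        rw [← hb, phi_coeff]
        exact ⟨_, rfl⟩
      · push Not at h7
        obtain ⟨i, hi⟩ := h7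
        rw [phi_coeff_neg K s _ i hi]
        exact Subring.zero_mem _
  · rintro ⟨N, h1, h2⟩
    choose g hg using h2
    set s : MvPowerSeries (Fin n) Λ := fun b => g (expo b - N • expo e) with hs
    have hsc : ∀ a, (phi Λ K s).coeff a = u ^ N * f (a - N • expo e) := by
      intro a
      by_cases h7 : ∀ i, 0 ≤ a i
      · obtain ⟨b, rfl⟩ := exists_expo h7
        rw [phi_coeff]
        exact hg _
      · push Not at h7
        obtain ⟨i, hi⟩ := h7
        rw [phi_coeff_neg K s _ i hi]
        symm
        by_contra hne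
        have h8 : f (a - N • expo e) ≠ 0 := fun h0 => hne (by rw [h0, mul_zero])
        obtain ⟨h9, h10⟩ := h1 _ h8 i
        simp only [Pi.sub_apply, nsmul_expo] at h9 h10
        by_cases he : e i = 0
        · have := h10 he
          rw [he] at this
          simp only [Nat.cast_zero, mul_zero, sub_zero] at this
          omega
        · have h11 : (N : ℤ) * 1 ≤ (N : ℤ) * (e i : ℤ) := by
            have : N * 1 ≤ N * e i := Nat.mul_le_mul_left _ (Nat.one_le_iff_ne_zero.2 he)
            exact_mod_cast this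
          omega
    refine ⟨IsLocalization.mk' _ s (⟨m ^ N, N, rfl⟩ : Submonoid.powers m), ?_⟩
    have h3 : phiLoc h.isUnit (IsLocalization.mk' _ s (⟨m ^ N, N, rfl⟩ : Submonoid.powers m)) *
        HahnSeries.single (N • expo e) (u ^ N) = phi Λ K s := by
      have h4 := IsLocalization.mk'_spec (Localization.Away m) s
        (⟨m ^ N, N, rfl⟩ : Submonoid.powers m)
      have := congrArg (phiLoc h.isUnit) h4
      rw [map_mul, phiLoc_algebraMap, phiLoc_algebraMap] at this
      simp only [map_pow] at this
      rw [h.pow] at this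
      exact this
    funext a
    have h5 := congrArg (fun x => HahnSeries.coeff x (a + N • expo e)) h3
    simp only [HahnSeries.coeff_mul_single, add_sub_cancel_right, hsc] at h5
    have h6 : u ^ N ≠ 0 := pow_ne_zero _ h.ne
    rw [mul_comm] at h5
    exact mul_left_cancel₀ h6 h5

end phi

end Pool.Agent.Helper7.LY
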