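import Pool.Agent.Helper7.LY.Defs

/-!
The Cech complex, in terms of products of modules.
-/

set_option autoImplicit false

namespace Pool.Agent.Helper7.LY

section Cech

variable {S : Type} [CommRing S] {r : ℕ}

/-- The cochains of degree `k` of the Cech complex of `S` and the elements `x i`. -/
abbrev Cochain (x : Fin r → S) (k : ℕ) : Type :=
  (A : {A : Finset (Fin r) // A.card = k}) → Loc x A.1

/-- The Cech differential. -/
noncomputable def cechD (x : Fin r → S) (k : ℕ) : Cochain x k →ₗ[S] Cochain x (k + 1) :=
  LinearMap.pi fun B => ∑ i : {i // i ∈ B.1}, sgn B.1 i.1 •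
    ((res x (Finset.erase_subset i.1 B.1)).toLinearMap.comp (LinearMap.proj (eraseSub B i)))

/-- The coboundaries. -/
noncomputable def cob (x : Fin r → S) : (k : ℕ) → Submodule S (Cochain x k)
  | 0 => ⊥
  | k + 1 => LinearMap.range (cechD x k)

/-- The cohomology in degree `k` of the Cech complex. -/
abbrev CechH (x : Fin r → S) (k : ℕ) : Type :=
  LinearMap.ker (cechD x k) ⧸ (cob x k).comap (LinearMap.ker (cechD x k)).subtype

/-- The two descriptions of the Cech complex have the same differential. -/
lemma cechMap_eq (x : Fin r → S) (k : ℕ) :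
    (cechMap x k : Cochain x k →ₗ[S] Cochain x (k + 1)) = cechD x k := by
  apply LinearMap.ext
  intro c
  funext B
  change ∑ i, cechTerm x c B i = cechD x k c B
  simp only [cechD, LinearMap.pi_apply, LinearMap.coe_sum, Finset.sum_apply, LinearMap.smul_apply]
  rfl

lemma coboundaries_eq (x : Fin r → S) (k : ℕ) :
    (coboundaries x k : Submodule S (Cochain x k)) = cob x k := by
  cases k with
  | zero => rfl
  | succ k =>
    change LinearMap.range (cechMap x k) = LinearMap.range (cechD x k)
    rw [← cechMap_eq]
    rfl

/-- Equal maps and submodules give isomorphic quotients. -/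
noncomputable def quotEquiv {A B : Type} [AddCommGroup A] [Module S A] [AddCommGroup B] [Module S B]
    {D D' : A →ₗ[S] B} {N N' : Submodule S A} (h : D = D') (h' : N = N') :
    (LinearMap.ker D ⧸ N.comap (LinearMap.ker D).subtype) ≃ₗ[S]
      (LinearMap.ker D' ⧸ N'.comap (LinearMap.ker D').subtype) := by
  subst h h'
  exact LinearEquiv.refl S _

/-- The two descriptions of the cohomology. -/
noncomputable def locCohEquiv (x : Fin r → S) (k : ℕ) : LocCoh x k ≃ₗ[S] CechH x k :=
  quotEquiv (cechMap_eq x k) (coboundaries_eq x k)

end Cech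

end Pool.Agent.Helper7.LY
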