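import Pool.Agent.Helper7.LY.Cech

/-!
Coboundaries of functions of finite subsets, and double complexes.
-/

set_option autoImplicit false

namespace Pool.Agent.Helper7.LY

section cobd

variable {ι : Type} [LinearOrder ι] {W : Type} [AddCommGroup W]

lemma sgn_mul_self (B : Finset ι) (i : ι) : sgn B i * sgn B i = 1 := by
  unfold sgn
  rw [← mul_pow]
  simp

lemma sgn_erase_of_lt {B : Finset ι} {i j : ι} (h : j < i) : sgn (B.erase i) j = sgn B j := by
  unfold sgn
  congr 2
  ext x
  simp only [Finset.mem_filter, Finset.mem_erase]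
  constructor
  · rintro ⟨⟨_, h1⟩, h2⟩
    exact ⟨h1, h2⟩
  · rintro ⟨h1, h2⟩
    exact ⟨⟨(h2.trans h).ne, h1⟩, h2⟩

lemma sgn_erase_of_gt {B : Finset ι} {i j : ι} (hi : i ∈ B) (h : i < j) :
    sgn (B.erase i) j = - sgn B j := by
  unfold sgn
  have : B.filter (· < j) = insert i ((B.erase i).filter (· < j)) := by
    ext x
    simp only [Finset.mem_filter, Finset.mem_erase, Finset.mem_insert]
    constructor
    · rintro ⟨h1, h2⟩
      by_cases hx : x = i
      · exact Or.inl hx
      · exact Or.inr ⟨⟨hx, h1⟩, h2⟩
    · rintro (rfl | ⟨⟨_, h1⟩, h2⟩)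
      · exact ⟨hi, h⟩
      · exact ⟨h1, h2⟩
  rw [this, Finset.card_insert_of_notMem (by simp)]
  rw [pow_succ]
  ring

/-- The coboundary. -/
def cobd (c : Finset ι → W) (B : Finset ι) : W := ∑ i ∈ B, sgn B i • c (B.erase i)

lemma cobd_add (c d : Finset ι → W) : cobd (c + d) = cobd c + cobd d := by
  funext B
  simp [cobd, Finset.sum_add_distrib]

lemma cobd_sub (c d : Finset ι → W) : cobd (c - d) = cobd c - cobd d := by
  funext B
  simp [cobd, Finset.sum_sub_distrib, smul_sub]

lemma cobd_zero : cobd (0 : Finset ι → W) = 0 := by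
  funext B
  simp [cobd]

lemma cobd_zsmul (m : ℤ) (c : Finset ι → W) : cobd (m • c) = m • cobd c := by
  funext B
  simp only [cobd, Pi.smul_apply, Finset.smul_sum]
  refine Finset.sum_congr rfl fun i _ => ?_
  rw [smul_comm]

lemma cobd_map {W' : Type} [AddCommGroup W'] (f : W →+ W') (c : Finset ι → W) :
    cobd (fun A => f (c A)) = fun A => f (cobd c A) := by
  funext B
  simp [cobd, map_sum]

lemma cobd_cobd (c : Finset ι → W) : cobd (cobd c) = 0 := by
  funext B
  unfold cobd
  simp only [Finset.smul_sum, Pi.zero_apply]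
  rw [Finset.sum_sigma']
  refine Finset.sum_involution (fun x _ => ⟨x.2, x.1⟩) ?_ ?_ ?_ ?_
  · rintro ⟨i, j⟩ h
    simp only [Finset.mem_sigma, Finset.mem_erase] at h
    obtain ⟨hi, hji, hj⟩ := h
    simp only [smul_smul]
    rw [Finset.erase_right_comm (a := j) (b := i), ← add_smul]
    rcases lt_or_gt_of_ne hji with h' | h'
    · rw [sgn_erase_of_lt h', sgn_erase_of_gt hj h']
      rw [show sgn B i * sgn B j + sgn B j * -sgn B i = 0 by ring, zero_smul]
    · rw [sgn_erase_of_lt h', sgn_erase_of_gt hi h']
      rw [show sgn B i * -sgn B j + sgn B j * sgn B i = 0 by ring, zero_smul]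
  · rintro ⟨i, j⟩ h _ heq
    simp only [Finset.mem_sigma, Finset.mem_erase] at h
    simp only [Sigma.mk.injEq, heq_eq_eq] at heq
    exact h.2.1 heq.1
  · rintro ⟨i, j⟩ h
    simp only [Finset.mem_sigma, Finset.mem_erase] at h ⊢
    exact ⟨h.2.2, h.2.1.symm, h.1⟩
  · rintro ⟨i, j⟩ _
    rfl

/-- The contracting homotopy which toggles the element `t`. -/
def hom (t : ι) (c : Finset ι → W) (B : Finset ι) : W :=
  if t ∈ B then 0 else sgn (insert t B) t • c (insert t B)

lemma cobd_hom (t : ι) (c : Finset ι → W) (B : Finset ι) :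
    cobd (hom t c) B + hom t (cobd c) B = c B := by
  by_cases ht : t ∈ B
  · have h1 : hom t (cobd c) B = 0 := by simp [hom, ht]
    rw [h1, add_zero]
    unfold cobd
    rw [Finset.sum_eq_single_of_mem t ht]
    · simp only [hom, Finset.mem_erase, ne_eq, not_true_eq_false, false_and, if_false,
        Finset.insert_erase ht, smul_smul, sgn_mul_self, one_smul]
    · intro i _ hi
      have : t ∈ B.erase i := Finset.mem_erase.2 ⟨hi.symm, ht⟩
      simp [hom, this]
  · simp only [hom, ht, if_false, cobd]
    rw [Finset.sum_insert ht, Finset.erase_insert ht, smul_add, smul_smul, sgn_mul_self, one_smul,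
      add_comm (c B), ← add_assoc, Finset.smul_sum, ← Finset.sum_add_distrib]
    convert zero_add (c B)
    refine Finset.sum_eq_zero fun i hi => ?_
    have hit : i ≠ t := fun h => ht (h ▸ hi)
    have h1 : t ∉ B.erase i := fun h => ht (Finset.mem_of_mem_erase h)
    have h2 : (insert t B).erase i = insert t (B.erase i) := by
      rw [Finset.erase_insert_of_ne hit.symm]
    rw [if_neg h1, smul_smul, smul_smul, h2, ← add_smul]
    have h3 : sgn (insert t (B.erase i)) t = sgn ((insert t B).erase i) t := by rw [h2]
    have h4 : sgn B i = sgn ((insert t B).erase t) i := by rw [Finset.erase_insert ht]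
    rw [h3, h4]
    rcases lt_or_gt_of_ne hit with h' | h'
    · rw [sgn_erase_of_lt h', sgn_erase_of_gt (Finset.mem_insert_of_mem hi) h']
      rw [show sgn (insert t B) i * -sgn (insert t B) t +
        sgn (insert t B) t * sgn (insert t B) i = 0 by ring, zero_smul]
    · rw [sgn_erase_of_lt h', sgn_erase_of_gt (Finset.mem_insert_self t B) h']
      rw [show -sgn (insert t B) i * sgn (insert t B) t +
        sgn (insert t B) t * sgn (insert t B) i = 0 by ring, zero_smul]

end cobd

section double

variable {ι κ : Type} [LinearOrder ι] [LinearOrder κ] {W : Type} [AddCommGroup W]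

/-- The total differential of a double complex. -/
def dd (a : Finset ι → Finset κ → ℤ) (b : Finset ι → ℤ) (c : Finset ι → Finset κ → W)
    (A : Finset ι) (G : Finset κ) : W :=
  a A G • cobd (fun A => c A G) A + b A • cobd (c A) G

lemma dd_sub (a : Finset ι → Finset κ → ℤ) (b : Finset ι → ℤ) (c c' : Finset ι → Finset κ → W) :
    dd a b (c - c') = dd a b c - dd a b c' := by
  funext A G
  simp only [dd, Pi.sub_apply]
  have h1 : (fun A => c A G - c' A G) = (fun A => c A G) - (fun A => c' A G) := rfl
  rw [h1, cobd_sub, cobd_sub]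
  simp only [Pi.sub_apply, smul_sub]
  abel

lemma dd_add (a : Finset ι → Finset κ → ℤ) (b : Finset ι → ℤ) (c c' : Finset ι → Finset κ → W) :
    dd a b (c + c') = dd a b c + dd a b c' := by
  funext A G
  simp only [dd, Pi.add_apply]
  have h1 : (fun A => c A G + c' A G) = (fun A => c A G) + (fun A => c' A G) := rfl
  rw [h1, cobd_add, cobd_add]
  simp only [Pi.add_apply, smul_add]
  abel

/-- A double complex with exact columns is exact. -/
lemma exact_of_columns (a : Finset ι → Finset κ → ℤ) (b : Finset ι → ℤ) (hb : ∀ A, b A * b A = 1)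
    (hdd : ∀ c : Finset ι → Finset κ → W, dd a b (dd a b c) = 0)
    (P : Finset ι → Finset κ → Prop) (t : Finset ι → κ)
    (h1 : ∀ A G, P A G → ∀ i ∈ A, P (A.erase i) G)
    (ht : ∀ A G, P A G → P A (insert (t A) G))
    (z : Finset ι → Finset κ → W) (hz : ∀ A G, P A G → dd a b z A G = 0) (ℓ : ℕ) :
    ∃ y : Finset ι → Finset κ → W, ∀ A G, P A G → A.card < ℓ → z A G = dd a b y A G := by
  induction ℓ with
  | zero => exact ⟨0, fun A G _ h => by simp at h⟩
  | succ ℓ ih =>
    obtain ⟨y, hy⟩ := ih
    set z' := z - dd a b y with hz'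
    have hz'0 : ∀ A G, P A G → A.card < ℓ → z' A G = 0 := by
      intro A G h h'
      simp [hz', hy A G h h']
    have hz'd : ∀ A G, P A G → dd a b z' A G = 0 := by
      intro A G h
      rw [hz', dd_sub, hdd, sub_zero]
      exact hz A G h
    set y' : Finset ι → Finset κ → W := fun A G =>
      if A.card = ℓ then b A • hom (t A) (z' A) G else 0 with hy'
    refine ⟨y + y', fun A G h h' => ?_⟩
    rw [dd_add, ← sub_eq_zero]
    have key : z' A G = dd a b y' A G := by
      have hc1 : cobd (fun A => y' A G) A = 0 := by
        unfold cobd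
        refine Finset.sum_eq_zero fun i hi => ?_
        have : (A.erase i).card ≠ ℓ := by
          rw [Finset.card_erase_of_mem hi]
          have := Finset.card_pos.2 ⟨i, hi⟩
          omega
        simp [hy', this]
      rcases Nat.lt_succ_iff_lt_or_eq.1 h' with hlt | heq
      · rw [hz'0 A G h hlt]
        have hc2 : y' A = 0 := by
          funext G
          simp [hy', hlt.ne]
        simp [dd, hc1, hc2, cobd_zero]
      · have hc2 : y' A = b A • hom (t A) (z' A) := by
          funext G
          simp [hy', heq]
        have hh := cobd_hom (t A) (z' A) G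
        have h0 : hom (t A) (cobd (z' A)) G = 0 := by
          unfold hom
          split_ifs with htG
          · rfl
          · have h2 := hz'd A _ (ht A G h)
            unfold dd at h2
            have h4 : cobd (fun B => z' B (insert (t A) G)) A = 0 := by
              unfold cobd
              refine Finset.sum_eq_zero fun i hi => ?_
              change sgn A i • z' (A.erase i) (insert (t A) G) = 0
              rw [hz'0 (A.erase i) _ (h1 _ _ (ht A G h) i hi), smul_zero]
              rw [Finset.card_erase_of_mem hi]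
              have := Finset.card_pos.2 ⟨i, hi⟩
              omega
            rw [h4, smul_zero, zero_add] at h2
            have h5 := congrArg (fun w => b A • w) h2
            simp only [smul_smul, hb, one_smul, smul_zero] at h5
            rw [h5, smul_zero]
        rw [h0, add_zero] at hh
        simp only [dd, hc1, smul_zero, zero_add, hc2, cobd_zsmul, Pi.smul_apply, smul_smul, hb,
          one_smul]
        exact hh.symm
    rw [Pi.add_apply, Pi.add_apply, ← key, hz']
    simp

/-- The sign `(-1) ^ |A|`. -/
def par {ι : Type} (A : Finset ι) : ℤ := (-1) ^ A.card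

lemma par_mul_self {ι : Type} (A : Finset ι) : par A * par A = 1 := by
  unfold par
  rw [← mul_pow]
  simp

lemma par_erase {A : Finset ι} {i : ι} (h : i ∈ A) : par (A.erase i) = - par A := by
  unfold par
  rw [← Finset.card_erase_add_one h, pow_succ]
  ring

/-- The total differential. -/
def tot (c : Finset ι → Finset κ → W) (A : Finset ι) (G : Finset κ) : W :=
  cobd (fun A => c A G) A + par A • cobd (c A) G

lemma dd_par : dd (W := W) (fun (_ : Finset ι) (_ : Finset κ) => 1) par = tot := by
  funext c A G
  simp [dd, tot]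

lemma tot_tot (c : Finset ι → Finset κ → W) : tot (tot c) = 0 := by
  funext A G
  have h1 : cobd (fun A => tot c A G) A =
      - par A • ∑ i ∈ A, sgn A i • cobd (c (A.erase i)) G := by
    have : (fun A => tot c A G) = cobd (fun A => c A G) + fun A => par A • cobd (c A) G := by
      funext A
      rfl
    rw [this, cobd_add, cobd_cobd, zero_add]
    unfold cobd
    rw [Finset.smul_sum]
    refine Finset.sum_congr rfl fun i hi => ?_
    beta_reduce
    rw [par_erase hi, smul_comm]
  have h2 : cobd (tot c A) G = ∑ i ∈ A, sgn A i • cobd (c (A.erase i)) G := by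
    have : tot c A = (fun G => cobd (fun A => c A G) A) + par A • cobd (c A) := by
      funext G
      rfl
    rw [this, cobd_add, cobd_zsmul, cobd_cobd, smul_zero, add_zero]
    unfold cobd
    simp only [Finset.smul_sum]
    rw [Finset.sum_comm]
    refine Finset.sum_congr rfl fun i hi => ?_
    refine Finset.sum_congr rfl fun j hj => ?_
    rw [smul_comm]
  rw [tot, h1, h2, ← add_smul]
  simp

lemma dd_swap (c : Finset ι → Finset κ → W) (G : Finset κ) (A : Finset ι) :
    dd (fun (_ : Finset κ) (A : Finset ι) => par A) (fun _ => 1) (fun G A => c A G) G A =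
      tot c A G := by
  simp only [dd, tot, one_smul]
  rw [add_comm]

lemma dd_swap_swap (c : Finset κ → Finset ι → W) :
    dd (fun (_ : Finset κ) (A : Finset ι) => par A) (fun _ => 1)
      (dd (fun (_ : Finset κ) (A : Finset ι) => par A) (fun _ => 1) c) = 0 := by
  have h : dd (fun (_ : Finset κ) (A : Finset ι) => par A) (fun _ => 1) c =
      fun G A => tot (fun A G => c G A) A G := by
    funext G A
    exact dd_swap (fun A G => c G A) G A
  rw [h]
  funext G A
  rw [dd_swap (fun A G => tot (fun A G => c G A) A G)]
  exact congrFun (congrFun (tot_tot (fun A G => c G A)) A) G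

/-- Exactness of the total complex if the columns are exact. -/
lemma exact_cols [Fintype ι] (P : Finset ι → Finset κ → Prop) (t : Finset ι → κ)
    (h1 : ∀ A G, P A G → ∀ i ∈ A, P (A.erase i) G)
    (ht : ∀ A G, P A G → P A (insert (t A) G))
    (z : Finset ι → Finset κ → W) (hz : ∀ A G, P A G → tot z A G = 0) :
    ∃ y : Finset ι → Finset κ → W, ∀ A G, P A G → z A G = tot y A G := by
  obtain ⟨y, hy⟩ := exact_of_columns (W := W) (fun (_ : Finset ι) (_ : Finset κ) => 1) par
    par_mul_self (by
      intro c
      rw [dd_par]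
      exact tot_tot c) P t h1 ht z (by
      intro A G h
      rw [dd_par]
      exact hz A G h) (Fintype.card ι + 1)
  refine ⟨y, fun A G h => ?_⟩
  rw [dd_par] at hy
  exact hy A G h (Nat.lt_succ_of_le (Finset.card_le_univ A))

/-- Exactness of the total complex if the rows are exact. -/
lemma exact_rows [Fintype κ] (P : Finset ι → Finset κ → Prop) (t : Finset κ → ι)
    (h1 : ∀ A G, P A G → ∀ i ∈ G, P A (G.erase i))
    (ht : ∀ A G, P A G → P (insert (t G) A) G)
    (z : Finset ι → Finset κ → W) (hz : ∀ A G, P A G → tot z A G = 0) :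
    ∃ y : Finset ι → Finset κ → W, ∀ A G, P A G → z A G = tot y A G := by
  obtain ⟨y, hy⟩ := exact_of_columns (W := W)
    (fun (_ : Finset κ) (A : Finset ι) => par A) (fun _ => 1) (by simp) dd_swap_swap
    (fun G A => P A G) t (fun G A h => h1 A G h) (fun G A h => ht A G h)
    (fun G A => z A G) (by
      intro G A h
      rw [dd_swap]
      exact hz A G h) (Fintype.card κ + 1)
  refine ⟨fun A G => y G A, fun A G h => ?_⟩
  rw [hy G A h (Nat.lt_succ_of_le (Finset.card_le_univ G))]
  exact dd_swap (fun A G => y G A) G A

end double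

end Pool.Agent.Helper7.LY
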