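import Pool.Agent.Helper7.LY.Count

/-!
The socle of the Cech cohomology in mixed characteristic.
-/

set_option autoImplicit false
set_option linter.unusedSectionVars false

namespace Pool.Agent.Helper7.LY

section up

variable {r : ℕ}

/-- The image of a set of indices. -/
def up (A : Finset (Fin r)) : Finset (Fin (r + 1)) := A.map (Fin.succEmb r)

/-- The image of a set of indices, with the index `0`. -/
def up0 (A : Finset (Fin r)) : Finset (Fin (r + 1)) := insert 0 (up A)

lemma zero_notMem_up (A : Finset (Fin r)) : (0 : Fin (r + 1)) ∉ up A := by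
  simp [up, Fin.succ_ne_zero]

lemma succ_mem_up (A : Finset (Fin r)) (i : Fin r) : i.succ ∈ up A ↔ i ∈ A := by
  simp [up]

lemma succ_mem_up0 (A : Finset (Fin r)) (i : Fin r) : i.succ ∈ up0 A ↔ i ∈ A := by
  simp [up0, succ_mem_up, Fin.succ_ne_zero]

lemma card_up (A : Finset (Fin r)) : (up A).card = A.card := Finset.card_map _

lemma card_up0 (A : Finset (Fin r)) : (up0 A).card = A.card + 1 := by
  rw [up0, Finset.card_insert_of_notMem (zero_notMem_up A), card_up]

/-- The set of the indices whose successors are in a set. -/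
def down (B : Finset (Fin (r + 1))) : Finset (Fin r) := Finset.univ.filter fun i => i.succ ∈ B

lemma up_down {B : Finset (Fin (r + 1))} (h : 0 ∉ B) : up (down B) = B := by
  ext i
  refine Fin.cases ?_ (fun j => ?_) i
  · simp [zero_notMem_up, h]
  · simp [succ_mem_up, down]

lemma up0_down {B : Finset (Fin (r + 1))} (h : 0 ∈ B) : up0 (down B) = B := by
  ext i
  refine Fin.cases ?_ (fun j => ?_) i
  · simp [up0, h]
  · simp [succ_mem_up0, down]

lemma down_up (A : Finset (Fin r)) : down (up A) = A := by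
  ext i
  simp [down, succ_mem_up]

lemma down_up0 (A : Finset (Fin r)) : down (up0 A) = A := by
  ext i
  simp [down, succ_mem_up0]

lemma up_erase (A : Finset (Fin r)) (i : Fin r) : up (A.erase i) = (up A).erase i.succ := by
  ext j
  refine Fin.cases ?_ (fun j => ?_) j
  · simp [zero_notMem_up]
  · simp [succ_mem_up]

lemma up0_erase (A : Finset (Fin r)) (i : Fin r) : up0 (A.erase i) = (up0 A).erase i.succ := by
  ext j
  refine Fin.cases ?_ (fun j => ?_) j
  · simp [up0, (Fin.succ_ne_zero i).symm]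
  · simp [succ_mem_up0]

lemma up0_erase_zero (A : Finset (Fin r)) : (up0 A).erase 0 = up A := by
  rw [up0, Finset.erase_insert (zero_notMem_up A)]

lemma sgn_up (A : Finset (Fin r)) (i : Fin r) : sgn (up A) i.succ = sgn A i := by
  unfold sgn
  congr 1
  rw [show (up A).filter (· < i.succ) = up (A.filter (· < i)) from ?_, card_up]
  ext j
  refine Fin.cases ?_ (fun j => ?_) j
  · simp [zero_notMem_up]
  · simp [succ_mem_up]

lemma sgn_up0 (A : Finset (Fin r)) (i : Fin r) : sgn (up0 A) i.succ = - sgn A i := by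
  unfold sgn
  rw [show (up0 A).filter (· < i.succ) = up0 (A.filter (· < i)) from ?_, card_up0, pow_succ]
  · ring
  ext j
  refine Fin.cases ?_ (fun j => ?_) j
  · simp [up0]
  · simp [succ_mem_up0]

lemma sgn_up0_zero (A : Finset (Fin r)) : sgn (up0 A) 0 = 1 := by
  unfold sgn
  rw [show (up0 A).filter (· < 0) = ∅ from ?_]
  · simp
  ext j
  simp

variable {W : Type} [AddCommGroup W]

lemma cobd_neg {ι : Type} [LinearOrder ι] (c : Finset ι → W) :
    cobd (fun A => - c A) = - cobd c := by
  have h : (fun A => - c A) = (-1 : ℤ) • c := by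
    funext A
    simp
  rw [h, cobd_zsmul]
  simp

lemma cobd_up (c : Finset (Fin (r + 1)) → W) (A : Finset (Fin r)) :
    cobd c (up A) = cobd (fun A => c (up A)) A := by
  unfold cobd
  rw [up, Finset.sum_map]
  refine Finset.sum_congr rfl fun i _ => ?_
  beta_reduce
  rw [up_erase, ← sgn_up A i]
  rfl

lemma cobd_up0 (c : Finset (Fin (r + 1)) → W) (A : Finset (Fin r)) :
    cobd c (up0 A) = c (up A) - cobd (fun A => c (up0 A)) A := by
  have h1 : cobd c (up0 A) = sgn (up0 A) 0 • c ((up0 A).erase 0) +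
      ∑ i ∈ up A, sgn (up0 A) i • c ((up0 A).erase i) := by
    unfold cobd
    conv_lhs => rw [show ∑ i ∈ up0 A, sgn (up0 A) i • c ((up0 A).erase i) =
      ∑ i ∈ insert 0 (up A), sgn (up0 A) i • c ((up0 A).erase i) from rfl]
    rw [Finset.sum_insert (zero_notMem_up A)]
  rw [h1, sgn_up0_zero, one_smul, up0_erase_zero, sub_eq_add_neg]
  congr 1
  unfold cobd
  rw [← Finset.sum_neg_distrib, up, Finset.sum_map]
  refine Finset.sum_congr rfl fun i _ => ?_
  beta_reduce
  rw [up0_erase, Fin.coe_succEmb, sgn_up0, neg_smul]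

end up

section mixed

variable {n r : ℕ}

/-- The elements `2` and the monomials over the `2`-adic integers. -/
noncomputable abbrev yM (gens : Fin r → Finset (Fin n)) :
    Fin (r + 1) → MvPowerSeries (Fin n) ℤ_[2] := Fin.cons 2 fun j => xm ℤ_[2] (gens j)

/-- The exponents. -/
noncomputable def eM (gens : Fin r → Finset (Fin n)) : Fin (r + 1) → (Fin n →₀ ℕ) :=
  Fin.cons 0 fun j => ∑ l ∈ gens j, Finsupp.single l 1

/-- The coefficients. -/
noncomputable def uM : Fin (r + 1) → ℚ_[2] := Fin.cons 2 fun _ => 1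

lemma hyM (gens : Fin r → Finset (Fin n)) (j : Fin (r + 1)) :
    Mono (yM gens j) (eM gens j) (uM j) := by
  refine Fin.cases ?_ (fun j => ?_) j
  · refine ⟨?_, by simp [uM]⟩
    simp only [yM, eM, uM, Fin.cons_zero, map_ofNat, map_zero]
    rw [← map_ofNat (HahnSeries.C (Γ := Fin n → ℤ) (R := ℚ_[2])) 2]
    rfl
  · simp only [yM, eM, uM, Fin.cons_succ]
    exact Mono.xm (gens j)

lemma hMM (gens : Fin r → Finset (Fin n)) (A : Finset (Fin (r + 1))) :
    Mono (∏ j ∈ A, yM gens j) (∑ j ∈ A, eM gens j) (∏ j ∈ A, uM j) :=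
  Mono.prod (hyM gens) A

lemma sum_eM_up (gens : Fin r → Finset (Fin n)) (A : Finset (Fin r)) :
    ∑ j ∈ up A, eM gens j = ∑ j ∈ A, ∑ l ∈ gens j, Finsupp.single l 1 := by
  rw [up, Finset.sum_map]
  rfl

lemma sum_eM_up0 (gens : Fin r → Finset (Fin n)) (A : Finset (Fin r)) :
    ∑ j ∈ up0 A, eM gens j = ∑ j ∈ A, ∑ l ∈ gens j, Finsupp.single l 1 := by
  rw [up0, Finset.sum_insert (zero_notMem_up A), sum_eM_up]
  simp [eM]

lemma prod_uM_up (A : Finset (Fin r)) : ∏ j ∈ up A, uM (r := r) j = 1 := by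
  rw [up, Finset.prod_map]
  simp [uM]

lemma prod_uM_up0 (A : Finset (Fin r)) : ∏ j ∈ up0 A, uM (r := r) j = 2 := by
  rw [up0, Finset.prod_insert (zero_notMem_up A), prod_uM_up]
  simp [uM]

/-- The `2`-adic integers in the `2`-adic numbers. -/
noncomputable def Z2 : AddSubgroup ℚ_[2] := (algebraMap ℤ_[2] ℚ_[2]).range.toAddSubgroup

lemma mem_L1_iff_up0 (gens : Fin r → Finset (Fin n)) (A : Finset (Fin r))
    (f : (Fin n → ℤ) → ℚ_[2]) :
    f ∈ L1 Z2 (A.biUnion gens) ↔ ∃ l, cf (hMM gens) (up0 A) l = f := by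
  simp only [cf_apply]
  rw [mem_range_phiLoc (hMM gens (up0 A))]
  simp only [sum_eM_up0, prod_uM_up0, sum_sum_eq_zero]
  constructor
  · rintro ⟨N, h1, h2⟩
    refine ⟨N, h1, fun a => ?_⟩
    have := h2 a
    simpa [Z2] using this
  · rintro ⟨N, h1, h2⟩
    refine ⟨N, h1, fun a => ?_⟩
    have := h2 a
    simpa [Z2] using this

lemma mem_L0_iff_up (gens : Fin r → Finset (Fin n)) (A : Finset (Fin r))
    (f : (Fin n → ℤ) → ℚ_[2]) :
    f ∈ L0 Z2 (A.biUnion gens) ↔ ∃ l, cf (hMM gens) (up A) l = f := by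
  simp only [cf_apply]
  rw [mem_range_phiLoc (hMM gens (up A))]
  simp only [sum_eM_up, prod_uM_up, sum_sum_eq_zero]
  constructor
  · rintro ⟨N, h1, h2⟩
    refine ⟨N, h1, fun a => ?_⟩
    have := h2 a
    simpa [Z2] using this
  · rintro ⟨N, h1, h2⟩
    refine ⟨N, h1, fun a => ?_⟩
    have := h2 a
    simpa [Z2] using this

/-- The elements of the socle, in mixed characteristic. -/
lemma count_mixed (gens : Fin r → Finset (Fin n)) (k : ℕ)
    {J : Type} (β : J → Finset (Fin r) → (Fin n → ℤ) → ℚ_[2])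
    (hβ : ∀ j, Soc Z2 gens k (β j))
    (hu : ∀ b, Soc Z2 gens k b → ∃! j, b - β j ∈ Bc Z2 gens k) :
    Nat.card (TT ℤ_[2] n (CechH (yM gens) (k + 1))) = Nat.card J := by
  have hinj : Function.Injective (algebraMap ℤ_[2] ℚ_[2]) := IsFractionRing.injective _ _
  set M := hMM gens with hMdef
  have hud : ∀ B : Finset (Fin (r + 1)), (∃ A : Finset (Fin r), B = up A) ∨
      ∃ A : Finset (Fin r), B = up0 A := by
    intro B
    by_cases h : 0 ∈ B
    · exact Or.inr ⟨_, (up0_down h).symm⟩
    · exact Or.inl ⟨_, (up_down h).symm⟩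
  -- the comparison map
  let Ψ : LinearMap.ker (cechD (yM gens) (k + 1)) →+
      (Finset (Fin r) → (Fin n → ℤ) → ℚ_[2]) :=
    { toFun := fun z A => Bmap M (k + 1) z.1 (up0 A)
      map_zero' := by
        funext A
        change Bmap M (k + 1) 0 (up0 A) = 0
        rw [map_zero]
        rfl
      map_add' := fun z z' => by
        funext A
        change Bmap M (k + 1) (z.1 + z'.1) (up0 A) = _
        rw [map_add]
        rfl }
  have hΨ : ∀ z A, Ψ z A = Bmap M (k + 1) z.1 (up0 A) := fun _ _ => rfl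
  have hker : ∀ z : LinearMap.ker (cechD (yM gens) (k + 1)), cobd (Bmap M (k + 1) z.1) = 0 := by
    intro z
    rw [← Bmap_cechD, LinearMap.mem_ker.1 z.2, map_zero]
  have hcobΨ : ∀ (z : LinearMap.ker (cechD (yM gens) (k + 1))) B,
      cobd (Ψ z) B = Bmap M (k + 1) z.1 (up B) := by
    intro z B
    have h := cobd_up0 (Bmap M (k + 1) z.1) B
    rw [hker z] at h
    exact (sub_eq_zero.1 h.symm).symm
  refine card_TT (Λ0 := Z2) (gens := gens) (k := k) _ Ψ ?_ ?_ ?_ ?_ β hβ hu
  · intro z
    refine ⟨fun A => ⟨?_, fun hA => ?_⟩, fun B => ?_⟩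
    · rw [hΨ]
      by_cases hA : (up0 A).card = k + 1
      · rw [mem_L1_iff_up0]
        exact ⟨_, (Bmap_apply M (k + 1) z.1 (up0 A) hA).symm⟩
      · rw [Bmap_apply_ne _ _ _ _ hA]
        exact AddSubgroup.zero_mem _
    · rw [hΨ]
      apply Bmap_apply_ne
      rw [card_up0]
      simpa using hA
    · rw [hcobΨ]
      by_cases hB : (up B).card = k + 1
      · rw [mem_L0_iff_up]
        exact ⟨_, (Bmap_apply M (k + 1) z.1 (up B) hB).symm⟩
      · rw [Bmap_apply_ne _ _ _ _ hB]
        exact AddSubgroup.zero_mem _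
  · rintro b ⟨h1, h2⟩
    classical
    let b' : Finset (Fin (r + 1)) → (Fin n → ℤ) → ℚ_[2] := fun B =>
      if 0 ∈ B then b (down B) else cobd b (down B)
    have hb0 : ∀ A, b' (up0 A) = b A := by
      intro A
      simp only [b', down_up0]
      rw [if_pos (by simp [up0])]
    have hb1 : ∀ A, b' (up A) = cobd b A := by
      intro A
      simp only [b', down_up]
      rw [if_neg (zero_notMem_up A)]
    obtain ⟨c, hc⟩ := Bmap_surj M (k + 1) b' (fun B hB => by
      rcases hud B with ⟨A, rfl⟩ | ⟨A, rfl⟩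
      · rw [hb1]
        exact (mem_L0_iff_up gens A _).1 (h2 A)
      · rw [hb0]
        exact (mem_L1_iff_up0 gens A _).1 (h1 A).1) (fun B hB => by
      rcases hud B with ⟨A, rfl⟩ | ⟨A, rfl⟩
      · rw [hb1]
        rw [card_up] at hB
        unfold cobd
        refine Finset.sum_eq_zero fun i hi => ?_
        rw [(h1 _).2, smul_zero]
        have := Finset.card_erase_add_one hi
        omega
      · rw [hb0]
        rw [card_up0] at hB
        exact (h1 A).2 (by omega))
    refine ⟨⟨c, ?_⟩, ?_⟩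
    · rw [LinearMap.mem_ker]
      apply Bmap_injective M hinj
      rw [Bmap_cechD, hc, map_zero]
      funext B
      rcases hud B with ⟨A, rfl⟩ | ⟨A, rfl⟩
      · rw [cobd_up]
        simp only [hb1]
        exact congrFun (cobd_cobd b) A
      · rw [cobd_up0, hb1]
        simp only [hb0]
        exact sub_self _
    · funext A
      change Bmap M (k + 1) c (up0 A) = b A
      rw [hc, hb0]
  · intro z
    change Ψ z ∈ _ ↔ z.1 ∈ LinearMap.range (cechD (yM gens) k)
    constructor
    · rintro ⟨β0, h0, η, h1, h2⟩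
      classical
      let b' : Finset (Fin (r + 1)) → (Fin n → ℤ) → ℚ_[2] := fun B =>
        if 0 ∈ B then - η (down B) else β0 (down B)
      have hb0 : ∀ A, b' (up0 A) = - η A := by
        intro A
        simp only [b', down_up0]
        rw [if_pos (by simp [up0])]
      have hb1 : ∀ A, b' (up A) = β0 A := by
        intro A
        simp only [b', down_up]
        rw [if_neg (zero_notMem_up A)]
      obtain ⟨d, hd⟩ := Bmap_surj M k b' (fun B hB => by
        rcases hud B with ⟨A, rfl⟩ | ⟨A, rfl⟩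
        · rw [hb1]
          exact (mem_L0_iff_up gens A _).1 (h0 A).1
        · rw [hb0]
          exact (mem_L1_iff_up0 gens A _).1 (AddSubgroup.neg_mem _ (h1 A).1)) (fun B hB => by
        rcases hud B with ⟨A, rfl⟩ | ⟨A, rfl⟩
        · rw [hb1]
          rw [card_up] at hB
          exact (h0 A).2 hB
        · rw [hb0]
          rw [card_up0] at hB
          rw [(h1 A).2 hB, neg_zero])
      refine ⟨d, ?_⟩
      apply Bmap_injective M hinj
      rw [Bmap_cechD, hd]
      have hneg : cobd (fun A => - η A) = - cobd η := cobd_neg η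
      funext B
      rcases hud B with ⟨A, rfl⟩ | ⟨A, rfl⟩
      · rw [cobd_up]
        simp only [hb1]
        rw [← hcobΨ, h2, cobd_add, cobd_cobd, add_zero]
      · rw [cobd_up0, hb1]
        simp only [hb0]
        rw [hneg, Pi.neg_apply, sub_neg_eq_add, ← hΨ, h2]
        rfl
    · rintro ⟨d, hd⟩
      have h3 : Bmap M (k + 1) z.1 = cobd (Bmap M k d) := by
        rw [← hd, Bmap_cechD]
      refine ⟨fun A => Bmap M k d (up A), fun A => ⟨?_, fun hA => ?_⟩,
        fun A => - Bmap M k d (up0 A), fun A => ⟨?_, fun hA => ?_⟩, ?_⟩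
      · by_cases hA : (up A).card = k
        · rw [mem_L0_iff_up]
          exact ⟨_, (Bmap_apply M k d (up A) hA).symm⟩
        · beta_reduce
          rw [Bmap_apply_ne _ _ _ _ hA]
          exact AddSubgroup.zero_mem _
      · apply Bmap_apply_ne
        rw [card_up]
        exact hA
      · apply AddSubgroup.neg_mem
        by_cases hA : (up0 A).card = k
        · rw [mem_L1_iff_up0]
          exact ⟨_, (Bmap_apply M k d (up0 A) hA).symm⟩
        · rw [Bmap_apply_ne _ _ _ _ hA]
          exact AddSubgroup.zero_mem _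
      · beta_reduce
        rw [Bmap_apply_ne, neg_zero]
        rw [card_up0]
        exact hA
      · have hneg : cobd (fun A => - Bmap M k d (up0 A)) =
            - cobd (fun A => Bmap M k d (up0 A)) := cobd_neg _
        funext A
        rw [hΨ, h3, cobd_up0, Pi.add_apply, hneg, Pi.neg_apply, sub_eq_add_neg]
  · intro i z
    funext A a
    exact congrFun (congrFun (Bmap_X M (k + 1) i z.1) (up0 A)) a

end mixed

end Pool.Agent.Helper7.LY
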