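import Pool.Agent.Helper7.LY.Ring
import Pool.Agent.Helper7.LY.Mixed

/-!
The completed ring and its two presentations.
-/

set_option autoImplicit false

namespace Pool.Agent.Helper7.LY

open IsLocalRing

section complete

variable {S : Type} [CommRing S] [IsNoetherianRing S] [IsLocalRing S]

lemma bij_of (hS : IsAdicComplete (maximalIdeal S) S) (I : Ideal S) [IsLocalRing (S ⧸ I)] :
    Function.Bijective (algebraMap (S ⧸ I) (AdicCompletion (maximalIdeal (S ⧸ I)) (S ⧸ I))) := by
  have hm : (maximalIdeal S).map (algebraMap S (S ⧸ I)) = maximalIdeal (S ⧸ I) :=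
    map_maximalIdeal_of_surjective _ Ideal.Quotient.mk_surjective
  have h1 : IsPrecomplete (maximalIdeal S) (S ⧸ I) := by
    rw [← AdicCompletion.of_surjective_iff]
    intro y
    obtain ⟨z, rfl⟩ := AdicCompletion.map_surjective (maximalIdeal S)
      (f := (Algebra.linearMap S (S ⧸ I))) Ideal.Quotient.mk_surjective y
    obtain ⟨s, rfl⟩ := AdicCompletion.of_surjective (maximalIdeal S) S z
    exact ⟨_, (AdicCompletion.map_of (maximalIdeal S) _ s).symm⟩
  have h2 : IsPrecomplete (maximalIdeal (S ⧸ I)) (S ⧸ I) := by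
    rw [← hm, IsPrecomplete.map_algebraMap_iff]
    exact h1
  have h3 : IsAdicComplete (maximalIdeal (S ⧸ I)) (S ⧸ I) := { h2 with }
  exact AdicCompletion.of_bijective (maximalIdeal (S ⧸ I)) (S ⧸ I)

end complete

section residue

variable {S : Type} [CommRing S] [IsLocalRing S]

lemma ker_eq_max (φ : S →+* ZMod 2) : RingHom.ker φ = maximalIdeal S := by
  have hφ : Function.Surjective φ := ZMod.ringHom_surjective φ
  exact eq_maximalIdeal (RingHom.ker_isMaximal_of_surjective φ hφ)

lemma card_residue (φ : S →+* ZMod 2) : Nat.card (ResidueField S) = 2 := by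
  have hφ : Function.Surjective φ := ZMod.ringHom_surjective φ
  have e : S ⧸ maximalIdeal S ≃+* ZMod 2 := (Ideal.quotEquivOfEq (ker_eq_max φ)).symm.trans
    (RingHom.quotientKerEquivOfSurjective hφ)
  change Nat.card (S ⧸ maximalIdeal S) = 2
  rw [Nat.card_congr e.toEquiv]
  simp

lemma char_residue (φ : S →+* ZMod 2) : CharP (ResidueField S) 2 := by
  have hφ : Function.Surjective φ := ZMod.ringHom_surjective φ
  have e : S ⧸ maximalIdeal S ≃+* ZMod 2 := (Ideal.quotEquivOfEq (ker_eq_max φ)).symm.trans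
    (RingHom.quotientKerEquivOfSurjective hφ)
  exact (charP_of_injective_ringHom (f := (e.symm : ZMod 2 →+* S ⧸ maximalIdeal S))
    e.symm.injective 2 : CharP (S ⧸ maximalIdeal S) 2)

end residue

section ring

variable {n r : ℕ} (gens : Fin r → Finset (Fin n))

lemma max_zmod : maximalIdeal (ZMod 2) = Ideal.span {2} := by
  rw [maximalIdeal_eq_bot]
  symm
  rw [Ideal.span_singleton_eq_bot]
  rfl

lemma max_padic : maximalIdeal ℤ_[2] = Ideal.span {2} := by
  rw [PadicInt.maximalIdeal_eq_span_p]
  rfl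

lemma complete_S : IsAdicComplete (maximalIdeal (MvPowerSeries (Fin n) (ZMod 2)))
    (MvPowerSeries (Fin n) (ZMod 2)) := by
  have h2 : (2 : MvPowerSeries (Fin n) (ZMod 2)) = 0 := by
    rw [← map_ofNat (MvPowerSeries.C (σ := Fin n) (R := ZMod 2)) 2, show (OfNat.ofNat 2 : ZMod 2) = 0
      from rfl, map_zero]
  rw [maximalIdeal_eq max_zmod, Ideal.span_union, h2, Ideal.span_singleton_eq_bot.2 rfl, bot_sup_eq]
  infer_instance

/-- The power series ring modulo the monomials. -/
abbrev SR : Type := MvPowerSeries (Fin n) (ZMod 2) ⧸ Ideal.span (Set.range (xE gens))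

lemma nontrivial_SR (h : ∀ j, (gens j).Nonempty) : Nontrivial (SR gens) := by
  apply Ideal.Quotient.nontrivial_iff.2
  intro h1
  have h2 : Ideal.span (Set.range (xE gens)) ≤
      RingHom.ker (MvPowerSeries.constantCoeff (σ := Fin n) (R := ZMod 2)) := by
    rw [Ideal.span_le]
    rintro _ ⟨j, rfl⟩
    obtain ⟨i, hi⟩ := h j
    change MvPowerSeries.constantCoeff (xm (ZMod 2) (gens j)) = 0
    rw [xm, map_prod]
    exact Finset.prod_eq_zero hi (MvPowerSeries.constantCoeff_X i)
  rw [h1, top_le_iff, Ideal.eq_top_iff_one] at h2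
  have h3 : MvPowerSeries.constantCoeff (σ := Fin n) (R := ZMod 2) 1 = 0 := h2
  rw [map_one] at h3
  exact one_ne_zero h3

lemma local_SR (h : ∀ j, (gens j).Nonempty) : IsLocalRing (SR gens) :=
  haveI := nontrivial_SR gens h
  IsLocalRing.of_surjective' (Ideal.Quotient.mk _) Ideal.Quotient.mk_surjective

lemma char_SR (h : ∀ j, (gens j).Nonempty) : CharP (SR gens) 2 :=
  haveI := nontrivial_SR gens h
  charP_of_injective_ringHom
    (f := (Ideal.Quotient.mk (Ideal.span (Set.range (xE gens)))).comp MvPowerSeries.C)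
    (RingHom.injective _) 2

/-- Reduction of the coefficients. -/
noncomputable def red (n : ℕ) : MvPowerSeries (Fin n) ℤ_[2] →+* MvPowerSeries (Fin n) (ZMod 2) :=
  MvPowerSeries.map PadicInt.toZMod

lemma red_surj : Function.Surjective (red n) := by
  intro f
  choose g hg using fun d => ZMod.ringHom_surjective (PadicInt.toZMod (p := 2))
    (MvPowerSeries.coeff d f)
  let f' : MvPowerSeries (Fin n) ℤ_[2] := fun d => g d
  have hf' : ∀ d, MvPowerSeries.coeff d f' = g d := fun _ => rfl
  refine ⟨f', ?_⟩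
  ext d
  rw [red, MvPowerSeries.coeff_map, hf']
  exact hg d

lemma red_ker : RingHom.ker (red n) = Ideal.span {2} := by
  apply le_antisymm
  · intro f hf
    have h1 : ∀ d, ∃ c, MvPowerSeries.coeff d f = 2 * c := by
      intro d
      have h2 : PadicInt.toZMod (p := 2) (MvPowerSeries.coeff d f) = 0 := by
        rw [← MvPowerSeries.coeff_map]
        change MvPowerSeries.coeff d (red n f) = 0
        rw [RingHom.mem_ker.1 hf]
        simp
      have h3 : MvPowerSeries.coeff d f ∈ RingHom.ker (PadicInt.toZMod (p := 2)) := h2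
      rw [PadicInt.ker_toZMod, max_padic, Ideal.mem_span_singleton] at h3
      exact h3
    choose c hc using h1
    rw [Ideal.mem_span_singleton]
    let c' : MvPowerSeries (Fin n) ℤ_[2] := fun d => c d
    have hc' : ∀ d, MvPowerSeries.coeff d c' = c d := fun _ => rfl
    refine ⟨c', ?_⟩
    ext d
    rw [hc d, ← map_ofNat (MvPowerSeries.C (σ := Fin n) (R := ℤ_[2])) 2,
      MvPowerSeries.coeff_C_mul, hc']
  · rw [Ideal.span_le]
    rintro _ rfl
    rw [SetLike.mem_coe, RingHom.mem_ker, map_ofNat,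
      ← map_ofNat (MvPowerSeries.C (σ := Fin n) (R := ZMod 2)) 2,
      show (OfNat.ofNat 2 : ZMod 2) = 0 from rfl, map_zero]

lemma red_xm (G : Finset (Fin n)) : red n (xm ℤ_[2] G) = xm (ZMod 2) G := by
  rw [xm, xm, map_prod]
  refine Finset.prod_congr rfl fun i _ => ?_
  rw [red, MvPowerSeries.map_X]

lemma comap_red : (Ideal.span (Set.range (xE gens))).comap (red n) =
    Ideal.span (Set.range (yM gens)) := by
  have h1 : Ideal.span (Set.range (xE gens)) =
      (Ideal.span (Set.range fun j => xm ℤ_[2] (gens j))).map (red n) := by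
    rw [Ideal.map_span, ← Set.range_comp]
    congr 2
    funext j
    exact (red_xm _).symm
  rw [h1, Ideal.comap_map_of_surjective _ red_surj, yM, Fin.range_cons, Set.insert_eq,
    Ideal.span_union, sup_comm]
  congr 1
  exact red_ker

end ring

section final

variable {n r : ℕ} (gens : Fin r → Finset (Fin n))

lemma two_notMem : (2 : MvPowerSeries (Fin n) ℤ_[2]) ∉
    maximalIdeal (MvPowerSeries (Fin n) ℤ_[2]) ^ 2 := by
  intro h
  have h1 : (maximalIdeal (MvPowerSeries (Fin n) ℤ_[2])).map
      (MvPowerSeries.constantCoeff (σ := Fin n) (R := ℤ_[2])) ≤ maximalIdeal ℤ_[2] := by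
    rw [Ideal.map_le_iff_le_comap]
    intro g hg
    exact (mem_max_iff g).1 hg
  have h2 := Ideal.mem_map_of_mem (MvPowerSeries.constantCoeff (σ := Fin n) (R := ℤ_[2])) h
  rw [Ideal.map_pow, map_ofNat] at h2
  have h3 := Ideal.pow_right_mono h1 2 h2
  rw [max_padic, Ideal.span_singleton_pow, Ideal.mem_span_singleton] at h3
  obtain ⟨c, hc⟩ := h3
  have h4 : (1 : ℤ_[2]) = 2 * c := by
    have h5 : (2 : ℤ_[2]) * 1 = 2 * (2 * c) := by
      linear_combination hc
    exact mul_left_cancel₀ two_ne_zero h5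
  have h5 : (2 : ℤ_[2]) ∈ maximalIdeal ℤ_[2] := by
    rw [max_padic]
    exact Ideal.mem_span_singleton_self _
  rw [mem_maximalIdeal, mem_nonunits_iff] at h5
  exact h5 (IsUnit.of_mul_eq_one c h4.symm)

lemma charZero_T : CharZero (MvPowerSeries (Fin n) ℤ_[2]) :=
  charZero_of_injective_ringHom (f := MvPowerSeries.C (σ := Fin n) (R := ℤ_[2]))
    (MvPowerSeries.C_injective)

lemma dim_padic : ringKrullDim ℤ_[2] = 1 := by
  apply IsPrincipalIdealRing.ringKrullDim_eq_one
  exact IsDiscreteValuationRing.not_isField _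

/-- The computation of the numbers from the number of elements of the socle. -/
lemma equal_number (h : ∀ j, (gens j).Nonempty) (j a : ℕ) (hj : j ≤ n)
    (hc : Nat.card (TT (ZMod 2) n (CechH (xE gens) (n - j))) = 2 ^ a) :
    haveI := local_SR gens h
    IsLyubeznikNumber (SR gens) 0 j a := by
  have := local_SR gens h
  obtain ⟨h1, h2⟩ := regular_mvPowerSeries (R := ZMod 2) n
  have hb := bij_of complete_S (Ideal.span (Set.range (xE gens)))
  refine ⟨MvPowerSeries (Fin n) (ZMod 2), inferInstance, h1, n, r,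
    (algebraMap (SR gens) (AdicCompletion (maximalIdeal (SR gens)) (SR gens))).comp
      (Ideal.Quotient.mk _), xE gens, ⟨ZMod 2, inferInstance, ⟨MvPowerSeries.C⟩⟩, ?_, ?_, ?_, ?_⟩
  · exact hb.2.comp Ideal.Quotient.mk_surjective
  · rw [h2]
    simp
  · rw [← RingHom.comap_ker, (RingHom.injective_iff_ker_eq_bot _).1 hb.1, ← RingHom.ker_eq_comap_bot,
      Ideal.mk_ker]
  · rw [if_pos hj]
    refine extLength_eq _ _ (card_residue MvPowerSeries.constantCoeff) a ?_
    rw [← hc]
    exact Nat.card_congr (Equiv.subtypeEquivRight fun y => killed_iff max_zmod y)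

lemma mixed_number (h : ∀ j, (gens j).Nonempty) (j a : ℕ) (hj : j ≤ n + 1)
    (hc : Nat.card (TT ℤ_[2] n (CechH (yM gens) (n + 1 - j))) = 2 ^ a) :
    haveI := local_SR gens h
    IsMixedLyubeznikNumber 2 (SR gens) 0 j a := by
  have := local_SR gens h
  obtain ⟨h1, h2⟩ := regular_mvPowerSeries (R := ℤ_[2]) n
  have hb := bij_of complete_S (Ideal.span (Set.range (xE gens)))
  refine ⟨MvPowerSeries (Fin n) ℤ_[2], inferInstance, h1, n + 1, r + 1,
    (algebraMap (SR gens) (AdicCompletion (maximalIdeal (SR gens)) (SR gens))).comp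
      ((Ideal.Quotient.mk _).comp (red n)), yM gens,
      ⟨Nat.prime_two, charZero_T, char_residue (PadicInt.toZMod.comp MvPowerSeries.constantCoeff),
        by exact_mod_cast two_notMem⟩, ?_, ?_, ?_, ?_⟩
  · exact hb.2.comp (Ideal.Quotient.mk_surjective.comp red_surj)
  · rw [h2, dim_padic]
    push_cast
    ring
  · rw [← RingHom.comap_ker, (RingHom.injective_iff_ker_eq_bot _).1 hb.1, ← RingHom.ker_eq_comap_bot,
      ← RingHom.comap_ker, Ideal.mk_ker, comap_red]
  · rw [if_pos hj]
    refine extLength_eq _ _ (card_residue (PadicInt.toZMod.comp MvPowerSeries.constantCoeff)) a ?_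
    rw [← hc]
    exact Nat.card_congr (Equiv.subtypeEquivRight fun y => killed_iff max_padic y)

end final

end Pool.Agent.Helper7.LY
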