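import Pool.Agent.Helper7.LY.Trans

/-!
The number of elements of the socle of the Cech cohomology.
-/

set_option autoImplicit false
set_option linter.unusedSectionVars false

namespace Pool.Agent.Helper7.LY

section count

variable {n r : ℕ} {Λ K : Type} [CommRing Λ] [Field K] {Λ0 : AddSubgroup K}
  {gens : Fin r → Finset (Fin n)}

/-- The elements killed by `2` and the variables. -/
abbrev TT (Λ : Type) [CommRing Λ] (n : ℕ) (H : Type) [AddCommGroup H]
    [Module (MvPowerSeries (Fin n) Λ) H] : Type :=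
  {h : H // (2 : MvPowerSeries (Fin n) Λ) • h = 0 ∧
    ∀ i : Fin n, (MvPowerSeries.X i : MvPowerSeries (Fin n) Λ) • h = 0}

lemma card_TT {Z : Type} [AddCommGroup Z] [Module (MvPowerSeries (Fin n) Λ) Z]
    (Bs : Submodule (MvPowerSeries (Fin n) Λ) Z) {k : ℕ}
    (Ψ : Z →+ (Finset (Fin r) → (Fin n → ℤ) → K))
    (h1 : ∀ z, Ψ z ∈ Zc Λ0 gens k) (h2 : ∀ β ∈ Zc Λ0 gens k, ∃ z, Ψ z = β)
    (h3 : ∀ z, Ψ z ∈ Bc Λ0 gens k ↔ z ∈ Bs)
    (h4 : ∀ i z, Ψ ((MvPowerSeries.X i : MvPowerSeries (Fin n) Λ) • z) = shift i (Ψ z))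
    {J : Type} (β : J → Finset (Fin r) → (Fin n → ℤ) → K) (hβ : ∀ j, Soc Λ0 gens k (β j))
    (hu : ∀ b, Soc Λ0 gens k b → ∃! j, b - β j ∈ Bc Λ0 gens k) :
    Nat.card (TT Λ n (Z ⧸ Bs)) = Nat.card J := by
  have h2z : ∀ z, Ψ ((2 : MvPowerSeries (Fin n) Λ) • z) = (2 : ℤ) • Ψ z := by
    intro z
    rw [two_smul, two_smul, map_add]
  have hsoc : ∀ z : Z, (((2 : MvPowerSeries (Fin n) Λ) • (Submodule.Quotient.mk z : Z ⧸ Bs) = 0 ∧
      ∀ i : Fin n, (MvPowerSeries.X i : MvPowerSeries (Fin n) Λ) •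
        (Submodule.Quotient.mk z : Z ⧸ Bs) = 0)) ↔ Soc Λ0 gens k (Ψ z) := by
    intro z
    simp only [← Submodule.Quotient.mk_smul, Submodule.Quotient.mk_eq_zero]
    simp only [← h3, h2z, h4]
    exact ⟨fun h => ⟨h1 z, h.1, h.2⟩, fun h => ⟨h.2.1, h.2.2⟩⟩
  choose z hz using fun j => h2 (β j) (hβ j).1
  have hmk : ∀ a b : Z, (Submodule.Quotient.mk a : Z ⧸ Bs) = Submodule.Quotient.mk b ↔
      Ψ a - Ψ b ∈ Bc Λ0 gens k := by
    intro a b
    rw [Submodule.Quotient.eq, ← h3, map_sub]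
  symm
  refine Nat.card_eq_of_bijective (fun j => (⟨Submodule.Quotient.mk (z j), (hsoc _).2 (by
    rw [hz j]
    exact hβ j)⟩ : TT Λ n (Z ⧸ Bs))) ⟨?_, ?_⟩
  · intro i j hij
    have h5 := Subtype.ext_iff.1 hij
    rw [hmk, hz, hz] at h5
    obtain ⟨l, _, hl⟩ := hu (β i) (hβ i)
    rw [hl i (by simp), hl j h5]
  · rintro ⟨h, hh⟩
    obtain ⟨a, rfl⟩ := Submodule.Quotient.mk_surjective _ h
    obtain ⟨j, hj, _⟩ := hu (Ψ a) ((hsoc a).1 hh)
    refine ⟨j, ?_⟩
    apply Subtype.ext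
    symm
    rw [hmk, hz]
    exact hj

end count

section mono

variable {n r : ℕ} {Λ K : Type} [CommRing Λ] [Field K] [Algebra Λ K]

lemma Mono.one : Mono (Λ := Λ) (K := K) (n := n) 1 0 1 := by
  refine ⟨?_, one_ne_zero⟩
  rw [map_one, map_zero]
  rfl

lemma Mono.mul {m m' : MvPowerSeries (Fin n) Λ} {e e' : Fin n →₀ ℕ} {u u' : K}
    (h : Mono m e u) (h' : Mono m' e' u') : Mono (m * m') (e + e') (u * u') := by
  refine ⟨?_, mul_ne_zero h.ne h'.ne⟩
  rw [map_mul, h.eq, h'.eq, HahnSeries.single_mul_single, map_add]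

lemma Mono.prod {ι : Type} {y : ι → MvPowerSeries (Fin n) Λ} {e : ι → Fin n →₀ ℕ} {u : ι → K}
    (h : ∀ j, Mono (y j) (e j) (u j)) (A : Finset ι) :
    Mono (∏ j ∈ A, y j) (∑ j ∈ A, e j) (∏ j ∈ A, u j) := by
  classical
  induction A using Finset.induction_on with
  | empty =>
    simp only [Finset.prod_empty, Finset.sum_empty]
    exact Mono.one
  | insert a A ha ih =>
    rw [Finset.prod_insert ha, Finset.sum_insert ha, Finset.prod_insert ha]
    exact (h a).mul ih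

/-- The product of the variables in a set. -/
noncomputable def xm (Λ : Type) [CommRing Λ] (G : Finset (Fin n)) : MvPowerSeries (Fin n) Λ :=
  ∏ i ∈ G, MvPowerSeries.X i

lemma Mono.xm (G : Finset (Fin n)) :
    Mono (K := K) (xm Λ G) (∑ i ∈ G, Finsupp.single i 1) 1 := by
  have : ∀ i : Fin n, Mono (K := K) (MvPowerSeries.X i : MvPowerSeries (Fin n) Λ)
      (Finsupp.single i 1) 1 := by
    intro i
    refine ⟨?_, one_ne_zero⟩
    rw [MvPowerSeries.X, phi_monomial, map_one]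
  have h := Mono.prod this G
  rwa [Finset.prod_const_one] at h

lemma sum_single_eq_zero (G : Finset (Fin n)) (i : Fin n) :
    (∑ j ∈ G, Finsupp.single j 1 : Fin n →₀ ℕ) i = 0 ↔ i ∉ G := by
  rw [Finsupp.finsetSum_apply]
  simp [Finsupp.single_apply]

lemma sum_sum_eq_zero (gens : Fin r → Finset (Fin n)) (A : Finset (Fin r)) (i : Fin n) :
    (∑ j ∈ A, ∑ l ∈ gens j, Finsupp.single l 1 : Fin n →₀ ℕ) i = 0 ↔ i ∉ A.biUnion gens := by
  rw [Finsupp.finsetSum_apply, Finset.sum_eq_zero_iff]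
  simp only [sum_single_eq_zero, Finset.mem_biUnion, not_exists, not_and]

end mono

section equal

variable {n r : ℕ}

instance fact2 : Fact (Nat.Prime 2) := ⟨Nat.prime_two⟩

/-- The monomials over the field with two elements. -/
noncomputable abbrev xE (gens : Fin r → Finset (Fin n)) :
    Fin r → MvPowerSeries (Fin n) (ZMod 2) := fun j => xm (ZMod 2) (gens j)

lemma hME (gens : Fin r → Finset (Fin n)) (A : Finset (Fin r)) :
    Mono (K := ZMod 2) (∏ j ∈ A, xE gens j)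
      (∑ j ∈ A, ∑ l ∈ gens j, Finsupp.single l 1) (∏ _j ∈ A, 1) :=
  Mono.prod (fun j => Mono.xm (gens j)) A

lemma mem_L1_iff (gens : Fin r → Finset (Fin n)) (A : Finset (Fin r))
    (f : (Fin n → ℤ) → ZMod 2) :
    f ∈ L1 (⊥ : AddSubgroup (ZMod 2)) (A.biUnion gens) ↔ ∃ l, cf (hME gens) A l = f := by
  simp only [cf_apply]
  rw [mem_range_phiLoc (hME gens A)]
  have h2 : (2 : ℤ) • (1 : ZMod 2) = 0 := by decide
  have h2' : ∀ w : ZMod 2, (2 : ℤ) • w = 0 := fun w => by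
    rw [← mul_one w, ← mul_smul_comm, h2, mul_zero]
  constructor
  · rintro ⟨N, h1, _⟩
    refine ⟨N, fun a ha i => ?_, fun a => ⟨_, rfl⟩⟩
    rw [sum_sum_eq_zero]
    exact h1 a ha i
  · rintro ⟨N, h1, _⟩
    refine ⟨N + 1, Bdd.mono (Nat.le_succ N) le_rfl (fun a ha i => ?_), fun a => ?_⟩
    · have := h1 a ha i
      rw [sum_sum_eq_zero] at this
      exact this
    · rw [pow_succ, mul_smul, h2', smul_zero]
      exact AddSubgroup.zero_mem _

lemma L0_bot {B : Finset (Fin n)} {f : (Fin n → ℤ) → ZMod 2}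
    (h : f ∈ L0 (⊥ : AddSubgroup (ZMod 2)) B) : f = 0 := by
  obtain ⟨N, _, h⟩ := h
  funext a
  exact h a

/-- The elements of the socle, in equal characteristic. -/
lemma count_equal (gens : Fin r → Finset (Fin n)) (k : ℕ)
    {J : Type} (β : J → Finset (Fin r) → (Fin n → ℤ) → ZMod 2)
    (hβ : ∀ j, Soc (⊥ : AddSubgroup (ZMod 2)) gens (k + 1) (β j))
    (hu : ∀ b, Soc (⊥ : AddSubgroup (ZMod 2)) gens (k + 1) b →
      ∃! j, b - β j ∈ Bc (⊥ : AddSubgroup (ZMod 2)) gens (k + 1)) :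
    Nat.card (TT (ZMod 2) n (CechH (xE gens) (k + 1))) = Nat.card J := by
  have hinj : Function.Injective (algebraMap (ZMod 2) (ZMod 2)) := Function.injective_id
  refine card_TT (Λ0 := ⊥) (gens := gens) (k := k + 1) _
    ((Bmap (hME gens) (k + 1)).comp
      (LinearMap.ker (cechD (xE gens) (k + 1))).subtype.toAddMonoidHom) ?_ ?_ ?_ ?_ β hβ hu
  · rintro ⟨c, hc⟩
    refine ⟨fun A => ⟨?_, fun hA => ?_⟩, fun B => ?_⟩
    · by_cases hA : A.card = k + 1
      · rw [mem_L1_iff]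
        exact ⟨_, (Bmap_apply (hME gens) (k + 1) c A hA).symm⟩
      · change Bmap (hME gens) (k + 1) c A ∈ _
        rw [Bmap_apply_ne _ _ _ _ hA]
        exact AddSubgroup.zero_mem _
    · exact Bmap_apply_ne _ _ _ _ (by simpa using hA)
    · change cobd (Bmap (hME gens) (k + 1) c) B ∈ _
      rw [← Bmap_cechD, LinearMap.mem_ker.1 hc, map_zero]
      exact AddSubgroup.zero_mem _
  · rintro β ⟨h1, h2⟩
    obtain ⟨c, hc⟩ := Bmap_surj (hME gens) (k + 1) β (fun A _ => (mem_L1_iff gens A _).1 (h1 A).1)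
      (fun A hA => (h1 A).2 (by simpa using hA))
    refine ⟨⟨c, ?_⟩, hc⟩
    rw [LinearMap.mem_ker]
    apply Bmap_injective (hME gens) hinj
    rw [Bmap_cechD, hc, map_zero]
    funext B
    exact L0_bot (h2 B)
  · rintro ⟨c, hc⟩
    change Bmap (hME gens) (k + 1) c ∈ _ ↔ c ∈ LinearMap.range (cechD (xE gens) k)
    constructor
    · rintro ⟨β0, h0, η, h1, h2⟩
      have hβ0 : β0 = 0 := by
        funext A
        exact L0_bot (h0 A).1
      obtain ⟨d, hd⟩ := Bmap_surj (hME gens) k η (fun A _ => (mem_L1_iff gens A _).1 (h1 A).1)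
        (fun A hA => (h1 A).2 (by simpa using hA))
      refine ⟨d, ?_⟩
      apply Bmap_injective (hME gens) hinj
      rw [Bmap_cechD, hd, h2, hβ0, zero_add]
    · rintro ⟨d, rfl⟩
      refine ⟨0, AddSubgroup.zero_mem _, Bmap (hME gens) k d, fun A => ⟨?_, fun hA => ?_⟩, ?_⟩
      · by_cases hA : A.card = k
        · rw [mem_L1_iff]
          exact ⟨_, (Bmap_apply (hME gens) k d A hA).symm⟩
        · rw [Bmap_apply_ne _ _ _ _ hA]
          exact AddSubgroup.zero_mem _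
      · exact Bmap_apply_ne _ _ _ _ (by simpa using hA)
      · rw [Bmap_cechD, zero_add]
  · intro i z
    exact Bmap_X (hME gens) (k + 1) i z.1

end equal

end Pool.Agent.Helper7.LY
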