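import Mathlib

/-!
Local cohomology of a ring in terms of the Cech complex, and Lyubeznik numbers.
-/

set_option autoImplicit false

namespace Pool.Agent.Helper7.LY

open IsLocalRing

section Cech

variable {S : Type} [CommRing S] {r : ℕ}

/-- The localization of `S` at the product of the elements `x i`, `i ∈ A`. -/
abbrev Loc (x : Fin r → S) (A : Finset (Fin r)) : Type := Localization.Away (∏ i ∈ A, x i)

lemma isUnit_of_subset (x : Fin r → S) {A B : Finset (Fin r)} (h : A ⊆ B) :
    IsUnit (algebraMap S (Loc x B) (∏ i ∈ A, x i)) := by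
  refine isUnit_of_dvd_unit (map_dvd _ (Finset.prod_dvd_prod_of_subset _ _ _ h)) ?_
  exact IsLocalization.Away.algebraMap_isUnit _

lemma isUnit_of_powers (x : Fin r → S) {A B : Finset (Fin r)} (h : A ⊆ B)
    (y : Submonoid.powers (∏ i ∈ A, x i)) : IsUnit (Algebra.ofId S (Loc x B) y) := by
  obtain ⟨y, k, rfl⟩ := y
  simpa [Algebra.ofId_apply] using (isUnit_of_subset x h).pow k

/-- The natural map between localizations, for `A ⊆ B`. -/
noncomputable def res (x : Fin r → S) {A B : Finset (Fin r)} (h : A ⊆ B) :
    Loc x A →ₐ[S] Loc x B :=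
  IsLocalization.liftAlgHom (M := Submonoid.powers (∏ i ∈ A, x i))
    (f := Algebra.ofId S (Loc x B)) (isUnit_of_powers x h)

/-- The sign in the Cech differential. -/
def sgn {ι : Type} [LinearOrder ι] (B : Finset ι) (i : ι) : ℤ := (-1) ^ (B.filter (· < i)).card

lemma card_erase_mem {k : ℕ} (B : {A : Finset (Fin r) // A.card = k + 1}) (i : {i // i ∈ B.1}) :
    (B.1.erase i.1).card = k := by
  rw [Finset.card_erase_of_mem i.2, B.2]
  rfl

/-- The set `B` without its element `i`. -/
def eraseSub {k : ℕ} (B : {A : Finset (Fin r) // A.card = k + 1}) (i : {i // i ∈ B.1}) :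
    {A : Finset (Fin r) // A.card = k} :=
  ⟨B.1.erase i.1, card_erase_mem B i⟩

/-- The module in degree `k` of the Cech complex of `S` and the elements `x i`: the product of the
localizations of `S` at the products of `k` of the elements `x i`. -/
def Cech (x : Fin r → S) (k : ℕ) : Type :=
  (A : {A : Finset (Fin r) // A.card = k}) → Loc x A.1

noncomputable instance (x : Fin r → S) (k : ℕ) : AddCommGroup (Cech x k) := Pi.addCommGroup

noncomputable instance (x : Fin r → S) (k : ℕ) : Module S (Cech x k) :=
  Pi.module _ (fun A : {A : Finset (Fin r) // A.card = k} => Loc x A.1) S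

/-- The component `B` of the Cech differential of `c` is the sum of these elements. -/
noncomputable def cechTerm (x : Fin r → S) {k : ℕ} (c : Cech x k)
    (B : {A : Finset (Fin r) // A.card = k + 1}) (i : {i // i ∈ B.1}) : Loc x B.1 :=
  sgn B.1 i.1 • res x (Finset.erase_subset i.1 B.1) (c (eraseSub B i))

/-- The Cech differential, as a function. -/
noncomputable def cechFun (x : Fin r → S) {k : ℕ} (c : Cech x k) : Cech x (k + 1) :=
  fun B => ∑ i : {i // i ∈ B.1}, cechTerm x c B i

lemma cechFun_add (x : Fin r → S) {k : ℕ} (c c' : Cech x k) :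
    cechFun x (c + c') = cechFun x c + cechFun x c' := by
  funext B
  change _ = (∑ i, cechTerm x c B i) + ∑ i, cechTerm x c' B i
  rw [← Finset.sum_add_distrib]
  refine Finset.sum_congr rfl fun i _ => ?_
  change sgn B.1 i.1 • res x _ (c (eraseSub B i) + c' (eraseSub B i)) = _
  rw [map_add, zsmul_add]
  rfl

lemma cechFun_smul (x : Fin r → S) {k : ℕ} (a : S) (c : Cech x k) :
    cechFun x (a • c) = a • cechFun x c := by
  funext B
  change _ = a • ∑ i, cechTerm x c B i
  rw [Finset.smul_sum]
  refine Finset.sum_congr rfl fun i _ => ?_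
  change sgn B.1 i.1 • res x _ (a • c (eraseSub B i)) = _
  rw [map_smul]
  exact (smul_comm a (sgn B.1 i.1) (res x _ (c (eraseSub B i)))).symm

/-- The Cech differential. -/
noncomputable def cechMap (x : Fin r → S) (k : ℕ) : Cech x k →ₗ[S] Cech x (k + 1) where
  toFun := cechFun x
  map_add' := cechFun_add x
  map_smul' := cechFun_smul x

/-- The cocycles. -/
noncomputable def cocycles (x : Fin r → S) (k : ℕ) : Submodule S (Cech x k) :=
  LinearMap.ker (cechMap x k)

/-- The coboundaries. -/
noncomputable def coboundaries (x : Fin r → S) : (k : ℕ) → Submodule S (Cech x k)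
  | 0 => ⊥
  | k + 1 => LinearMap.range (cechMap x k)

/-- The local cohomology module `H^k_I(S)`, where `I` is the ideal generated by the elements `x i`:
the cohomology in degree `k` of the Cech complex. -/
def LocCoh (x : Fin r → S) (k : ℕ) : Type :=
  cocycles x k ⧸ (coboundaries x k).comap (cocycles x k).subtype

noncomputable instance (x : Fin r → S) (k : ℕ) : AddCommGroup (LocCoh x k) :=
  Submodule.Quotient.addCommGroup _

noncomputable instance (x : Fin r → S) (k : ℕ) : Module S (LocCoh x k) :=
  Submodule.Quotient.module _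

end Cech

section Lyubeznik

/-- The residue field of `S`, as an object of the category of modules over `S`. -/
noncomputable def resMod (S : Type) [CommRing S] [IsLocalRing S] : ModuleCat.{0} S :=
  ModuleCat.of S (ResidueField S)

/-- The local cohomology module `H^k_I(S)`, as an object of the category of modules over `S`. -/
noncomputable def cohMod {S : Type} [CommRing S] {r : ℕ} (x : Fin r → S) (k : ℕ) :
    ModuleCat.{0} S :=
  ModuleCat.of S (LocCoh x k)

/-- The dimension of `Ext^i_S(K, H^k_I(S))`, where `K` is the residue field of `S` and `I` is the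
ideal generated by the elements `x i`. As `Ext^i_S(K, -)` is a vector space over `K`, its dimension
is its length as an `S`-module. -/
noncomputable def extLength {S : Type} [CommRing S] [IsLocalRing S] {r : ℕ} (x : Fin r → S)
    (i k : ℕ) : ℕ∞ :=
  Module.length S (CategoryTheory.Abelian.Ext (resMod S) (cohMod x k) i)

/-- `IsLyubeznikNumber R i j a`: the Lyubeznik number `λ_{i,j}(R)` is `a`. -/
def IsLyubeznikNumber (R : Type) [CommRing R] [IsLocalRing R] (i j a : ℕ) : Prop :=
  ∃ (S : Type) (_ : CommRing S) (_ : IsRegularLocalRing S) (n r : ℕ)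
    (π : S →+* AdicCompletion (maximalIdeal R) R) (x : Fin r → S),
    (∃ (k : Type) (_ : Field k), Nonempty (k →+* S)) ∧ Function.Surjective π ∧
    ringKrullDim S = n ∧ Ideal.span (Set.range x) = RingHom.ker π ∧
    (if j ≤ n then extLength x i (n - j) else 0) = (a : ℕ∞)

/-- `IsMixedLyubeznikNumber p R i j a`: the residue characteristic of `R` is the prime number `p`,
and the mixed characteristic Lyubeznik number of `R` with the indices `i`, `j` is `a`. -/
def IsMixedLyubeznikNumber (p : ℕ) (R : Type) [CommRing R] [IsLocalRing R] (i j a : ℕ) : Prop :=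
  ∃ (S : Type) (_ : CommRing S) (_ : IsRegularLocalRing S) (n r : ℕ)
    (π : S →+* AdicCompletion (maximalIdeal R) R) (x : Fin r → S),
    (p.Prime ∧ CharZero S ∧ CharP (ResidueField S) p ∧ (p : S) ∉ maximalIdeal S ^ 2) ∧
    Function.Surjective π ∧
    ringKrullDim S = n ∧ Ideal.span (Set.range x) = RingHom.ker π ∧
    (if j ≤ n then extLength x i (n - j) else 0) = (a : ℕ∞)

end Lyubeznik

end Pool.Agent.Helper7.LY
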