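import Pool.Agent.Helper7.LY.Data

/-!
Finite facts on the triangulation of the Klein bottle.
-/

set_option autoImplicit false

namespace Pool.Agent.Helper7.LY

/-- The incidence number. -/
def inc (G G' : Finset (Fin 8)) : ℤ := ∑ i ∈ G, if G.erase i = G' then sgn G i else 0

lemma ed_card : ∀ e, (Ed e).card = 6 := by decide +kernel

lemma tr_card : ∀ t, (Tr t).card = 5 := by decide +kernel

lemma ed_eset : ∀ e j, ¬ Disjoint (kgens j) (Ed e) := by decide +kernel

lemma tr_eset : ∀ t j, ¬ Disjoint (kgens j) (Tr t) := by decide +kernel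

lemma ed_inj : ∀ e e', Ed e = Ed e' → e = e' := by decide +kernel

lemma tr_inj : ∀ t t', Tr t = Tr t' → t = t' := by decide +kernel

lemma ed_surj : ∀ G : Finset (Fin 8), G.card = 6 → (∀ j, ¬ Disjoint (kgens j) G) →
    ∃ e, G = Ed e := by decide +kernel

lemma tr_surj : ∀ G : Finset (Fin 8), G.card = 5 → (∀ j, ¬ Disjoint (kgens j) G) →
    ∃ t, G = Tr t := by decide +kernel

lemma card7 : ∀ G : Finset (Fin 8), G.card = 7 → ∃ v, G = Finset.univ.erase v := by
  decide +kernel

lemma inc_ed_tr : ∀ e t, inc (Ed e) (Tr t) = D5 e t := by decide +kernel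

lemma inc_ve_ed : ∀ v e, inc (Finset.univ.erase v) (Ed e) = D6 v e := by decide +kernel

end Pool.Agent.Helper7.LY
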