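import Pool.Agent.Helper7.LY.Data

/-!
Identities between integral matrices.
-/

set_option autoImplicit false

namespace Pool.Agent.Helper7.LY

lemma mat1 : ∀ e e' : Fin 24, (if e = e' then (1 : ℤ) else 0) =
    z1 e * f1 e' + z2 e * f2 e' + ∑ t, D5 e t * H5 t e' + ∑ v, H6 e v * D6 v e' := by
  decide +kernel

lemma mat2 : ∀ t, ∑ e, f1 e * D5 e t = 0 := by decide +kernel

lemma mat3 : ∀ t, ∑ e, f2 e * D5 e t = 2 * g2 t := by decide +kernel

lemma mat4 : ∀ v, ∑ e, D6 v e * z1 e = 0 := by decide +kernel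

lemma mat5 : ∀ v, ∑ e, D6 v e * z2 e = 0 := by decide +kernel

lemma mat6 : ∀ e, 2 * z2 e = ∑ t, D5 e t * b2 t := by decide +kernel

lemma mat7 : ∑ e, f1 e * z1 e = 1 := by decide +kernel

lemma mat8 : ∑ e, f1 e * z2 e = 0 := by decide +kernel

lemma mat9 : ∑ e, f2 e * z1 e = 0 := by decide +kernel

lemma mat10 : ∑ e, f2 e * z2 e = 1 := by decide +kernel

lemma mat11 : ∀ v e e', v ∉ Ed e → v ∉ Ed e' → (if e = e' then (1 : ℤ) else 0) =
    ∑ t, D5 e t * Hs v t e' + Hs2 v e * D6 v e' := by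
  decide +kernel

lemma mat12 : ∀ v t e, v ∈ Tr t → Hs v t e = 0 := by
  decide +kernel

end Pool.Agent.Helper7.LY
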