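import Pool.Agent.Helper7.LY.Facts
import Pool.Agent.Helper7.LY.Mats

/-!
The homology of the Klein bottle with coefficients in an abelian group.
-/

set_option autoImplicit false

namespace Pool.Agent.Helper7.LY

variable {W : Type} [AddCommGroup W]

/-- A function given by its values on a family of sets. -/
def fam {m : ℕ} (S : Fin m → Finset (Fin 8)) (x : Fin m → W) : Finset (Fin 8) → W :=
  fun G => ∑ e, if G = S e then x e else 0

lemma fam_apply {m : ℕ} {S : Fin m → Finset (Fin 8)} (hS : ∀ e e', S e = S e' → e = e')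
    (x : Fin m → W) (e : Fin m) : fam S x (S e) = x e := by
  unfold fam
  rw [Finset.sum_eq_single_of_mem e (Finset.mem_univ e)]
  · simp
  · intro e' _ hne
    rw [if_neg]
    intro h
    exact hne (hS _ _ h).symm

lemma fam_ne {m : ℕ} {S : Fin m → Finset (Fin 8)} {x : Fin m → W} {G : Finset (Fin 8)}
    (h : fam S x G ≠ 0) : ∃ e, G = S e ∧ x e ≠ 0 := by
  by_contra hne
  apply h
  unfold fam
  refine Finset.sum_eq_zero fun e _ => ?_
  split_ifs with h1
  · by_contra h2
    exact hne ⟨e, h1, h2⟩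
  · rfl

lemma eq_fam {m : ℕ} {S : Fin m → Finset (Fin 8)} (hS : ∀ e e', S e = S e' → e = e')
    {y : Finset (Fin 8) → W} (h : ∀ G, y G ≠ 0 → ∃ e, G = S e) :
    y = fam S (fun e => y (S e)) := by
  funext G
  by_cases hG : ∃ e, G = S e
  · obtain ⟨e, rfl⟩ := hG
    rw [fam_apply hS]
  · have h1 : y G = 0 := by
      by_contra hne
      exact hG (h G hne)
    rw [h1]
    by_contra hne
    obtain ⟨e, he, _⟩ := fam_ne (Ne.symm hne)
    exact hG ⟨e, he⟩

lemma cobd_fam {m : ℕ} (S : Fin m → Finset (Fin 8)) (x : Fin m → W) (G : Finset (Fin 8)) :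
    cobd (fam S x) G = ∑ e, inc G (S e) • x e := by
  unfold cobd fam inc
  simp only [Finset.smul_sum, Finset.sum_smul]
  rw [Finset.sum_comm]
  refine Finset.sum_congr rfl fun e _ => Finset.sum_congr rfl fun i _ => ?_
  split_ifs <;> simp

lemma inc_ne {G G' : Finset (Fin 8)} (h : inc G G' ≠ 0) : ∃ i ∈ G, G.erase i = G' := by
  by_contra hne
  push Not at hne
  apply h
  unfold inc
  exact Finset.sum_eq_zero fun i hi => if_neg (hne i hi)

lemma eq_ed_of_inc {G : Finset (Fin 8)} {t : Fin 16} (h : inc G (Tr t) ≠ 0) :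
    ∃ e, G = Ed e := by
  obtain ⟨i, hi, hG⟩ := inc_ne h
  refine ed_surj G ?_ fun j hj => ?_
  · have := Finset.card_erase_add_one hi
    rw [hG, tr_card] at this
    exact this.symm
  · exact tr_eset t j (hj.mono_right (by
      rw [← hG]
      exact Finset.erase_subset _ _))

lemma BE_of (F : Finset (Fin 8)) (x : Finset (Fin 8) → W) (hx : ∀ G, x G ≠ 0 → ∃ e, G = Ed e)
    (y : Fin 16 → W) (hy : ∀ t, y t ≠ 0 → Tr t ⊆ F)
    (h : ∀ e, Ed e ⊆ F → x (Ed e) = ∑ t, D5 e t • y t) : BE kgens F 6 x := by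
  refine ⟨fam Tr y, fun G hG => ?_, fun G hG => ?_⟩
  · obtain ⟨t, rfl, ht⟩ := fam_ne hG
    exact ⟨by rw [tr_card], hy t ht, tr_eset t⟩
  · rw [cobd_fam]
    by_cases hE : ∃ e, G = Ed e
    · obtain ⟨e, rfl⟩ := hE
      rw [h e hG]
      simp only [inc_ed_tr]
    · have h1 : x G = 0 := by
        by_contra hne
        exact hE (hx G hne)
      rw [h1]
      symm
      refine Finset.sum_eq_zero fun t _ => ?_
      by_contra hne
      exact hE (eq_ed_of_inc fun h0 => hne (by rw [h0, zero_smul]))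

lemma of_BE {x : Finset (Fin 8) → W} (h : BE kgens Finset.univ 6 x) :
    ∃ y : Fin 16 → W, ∀ e, x (Ed e) = ∑ t, D5 e t • y t := by
  obtain ⟨w, h1, h2⟩ := h
  refine ⟨fun t => w (Tr t), fun e => ?_⟩
  rw [h2 (Ed e) (Finset.subset_univ _)]
  have hw : w = fam Tr (fun t => w (Tr t)) := eq_fam tr_inj fun G hG => by
    obtain ⟨h3, h4⟩ := h1 G hG
    exact tr_surj G (by omega) h4.2
  conv_lhs => rw [hw]
  rw [cobd_fam]
  simp only [inc_ed_tr]

lemma ZE_support {F : Finset (Fin 8)} {z : Finset (Fin 8) → W} (h : ZE kgens F 6 z)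
    (G : Finset (Fin 8)) (hG : z G ≠ 0) : ∃ e, G = Ed e :=
  ed_surj G (h.1 G hG).1 (h.1 G hG).2.2

lemma ZE_eq {F : Finset (Fin 8)} {z : Finset (Fin 8) → W} (h : ZE kgens F 6 z) (v : Fin 8)
    (hv : Finset.univ.erase v ⊆ F) : ∑ e, D6 v e • z (Ed e) = 0 := by
  have h1 := h.2 _ hv
  have hz : z = fam Ed (fun e => z (Ed e)) := eq_fam ed_inj (ZE_support h)
  rw [hz, cobd_fam] at h1
  simp only [inc_ve_ed] at h1
  exact h1

/-- The homology of the pairs given by the vertices. -/
lemma star_exact (v : Fin 8) (z : Finset (Fin 8) → W)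
    (hz : ZE kgens (Finset.univ.erase v) 6 z) : BE kgens (Finset.univ.erase v) 6 z := by
  refine BE_of _ z (ZE_support hz) (fun t => ∑ e, Hs v t e • z (Ed e)) (fun t ht => ?_)
    (fun e he => ?_)
  · intro i hi
    refine Finset.mem_erase.2 ⟨?_, Finset.mem_univ i⟩
    rintro rfl
    apply ht
    refine Finset.sum_eq_zero fun e _ => ?_
    rw [mat12 _ t e hi, zero_smul]
  · have hve : v ∉ Ed e := fun h => by simpa using he h
    have h1 : z (Ed e) = ∑ e', (if e = e' then (1 : ℤ) else 0) • z (Ed e') := by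
      simp
    rw [h1]
    have h2 : ∀ e', (if e = e' then (1 : ℤ) else 0) • z (Ed e') =
        (∑ t, D5 e t * Hs v t e' + Hs2 v e * D6 v e') • z (Ed e') := by
      intro e'
      by_cases he' : v ∈ Ed e'
      · have h3 : z (Ed e') = 0 := by
          by_contra hne
          have := (hz.1 _ hne).2.1 he'
          simp at this
        rw [h3, smul_zero, smul_zero]
      · rw [mat11 v e e' hve he']
    simp only [h2, add_smul, Finset.sum_add_distrib, mul_smul, Finset.sum_smul]
    rw [← Finset.smul_sum, ZE_eq hz v le_rfl, smul_zero, add_zero, Finset.sum_comm]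
    refine Finset.sum_congr rfl fun t _ => ?_
    rw [← Finset.smul_sum]

/-- The classes of the representatives. -/
def cls (w w' : W) : Finset (Fin 8) → W := fam Ed fun e => z1 e • w + z2 e • w'

lemma cls_apply (w w' : W) (e : Fin 24) : cls w w' (Ed e) = z1 e • w + z2 e • w' :=
  fam_apply ed_inj _ e

lemma cls_support (w w' : W) (G : Finset (Fin 8)) (h : cls w w' G ≠ 0) : ∃ e, G = Ed e := by
  obtain ⟨e, he, _⟩ := fam_ne h
  exact ⟨e, he⟩

lemma cls_ZE (w w' : W) : ZE kgens Finset.univ 6 (cls w w') := by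
  refine ⟨fun G hG => ?_, fun G _ => ?_⟩
  · obtain ⟨e, rfl⟩ := cls_support w w' G hG
    exact ⟨ed_card e, Finset.subset_univ _, ed_eset e⟩
  · unfold cls
    rw [cobd_fam]
    by_cases hG : G.card = 7
    · obtain ⟨v, rfl⟩ := card7 G hG
      simp only [inc_ve_ed, smul_add, smul_smul, Finset.sum_add_distrib]
      rw [← Finset.sum_smul, ← Finset.sum_smul, mat4, mat5, zero_smul, zero_smul, add_zero]
    · refine Finset.sum_eq_zero fun e _ => ?_
      have : inc G (Ed e) = 0 := by
        by_contra hne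
        obtain ⟨i, hi, h⟩ := inc_ne hne
        have h2 := Finset.card_erase_add_one hi
        rw [h, ed_card] at h2
        exact hG h2.symm
      rw [this, zero_smul]

lemma cls_two (w w' : W) (hw : (2 : ℤ) • w = 0) :
    BE kgens Finset.univ 6 ((2 : ℤ) • cls w w') := by
  refine BE_of _ _ (fun G hG => ?_) (fun t => b2 t • w') (fun t _ => Finset.subset_univ _)
    (fun e _ => ?_)
  · exact cls_support w w' G fun h => hG (by rw [Pi.smul_apply, h, smul_zero])
  · rw [Pi.smul_apply, cls_apply, smul_add, smul_comm (2 : ℤ) (z1 e), hw, smul_zero, zero_add,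
      smul_smul, mat6]
    rw [Finset.sum_smul]
    simp only [mul_smul]

lemma decomp {z : Finset (Fin 8) → W} (hz : ZE kgens Finset.univ 6 z) :
    ∃ w w' : W, w = ∑ e, f1 e • z (Ed e) ∧ w' = ∑ e, f2 e • z (Ed e) ∧
      ∃ y : Fin 16 → W, ∀ e, z (Ed e) = z1 e • w + z2 e • w' + ∑ t, D5 e t • y t := by
  refine ⟨_, _, rfl, rfl, fun t => ∑ e, H5 t e • z (Ed e), fun e => ?_⟩
  have h1 : z (Ed e) = ∑ e', (if e = e' then (1 : ℤ) else 0) • z (Ed e') := by
    simp
  rw [h1]
  simp only [mat1, add_smul, Finset.sum_add_distrib, mul_smul, Finset.sum_smul]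
  have h2 : ∑ e', ∑ v, H6 e v • D6 v e' • z (Ed e') = 0 := by
    rw [Finset.sum_comm]
    refine Finset.sum_eq_zero fun v _ => ?_
    rw [← Finset.smul_sum, ZE_eq hz v (Finset.subset_univ _), smul_zero]
  have h3 : ∑ e', ∑ t, D5 e t • H5 t e' • z (Ed e') =
      ∑ t, D5 e t • ∑ e', H5 t e' • z (Ed e') := by
    rw [Finset.sum_comm]
    refine Finset.sum_congr rfl fun t _ => ?_
    rw [← Finset.smul_sum]
  rw [h2, h3, add_zero, ← Finset.smul_sum, ← Finset.smul_sum]

lemma f1_bound (y : Fin 16 → W) : ∑ e, f1 e • ∑ t, D5 e t • y t = 0 := by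
  simp only [Finset.smul_sum, smul_smul]
  rw [Finset.sum_comm]
  refine Finset.sum_eq_zero fun t _ => ?_
  rw [← Finset.sum_smul, mat2, zero_smul]

lemma f2_bound (y : Fin 16 → W) :
    ∑ e, f2 e • ∑ t, D5 e t • y t = (2 : ℤ) • ∑ t, g2 t • y t := by
  simp only [Finset.smul_sum, smul_smul]
  rw [Finset.sum_comm]
  refine Finset.sum_congr rfl fun t _ => ?_
  rw [← Finset.sum_smul, mat3]

lemma f1_cls (w w' : W) : ∑ e, f1 e • (z1 e • w + z2 e • w') = w := by
  simp only [smul_add, smul_smul, Finset.sum_add_distrib]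
  rw [← Finset.sum_smul, ← Finset.sum_smul, mat7, mat8, one_smul, zero_smul, add_zero]

lemma f2_cls (w w' : W) : ∑ e, f2 e • (z1 e • w + z2 e • w') = w' := by
  simp only [smul_add, smul_smul, Finset.sum_add_distrib]
  rw [← Finset.sum_smul, ← Finset.sum_smul, mat9, mat10, one_smul, zero_smul, zero_add]

/-- The classes killed by two. -/
lemma classify {R2 : Type} (ρ : R2 → W) (hρ : ∀ w : W, ∃! s, ∃ v : W, w - ρ s = (2 : ℤ) • v)
    (z : Finset (Fin 8) → W) (hz : ZE kgens Finset.univ 6 z)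
    (h2 : BE kgens Finset.univ 6 ((2 : ℤ) • z)) :
    ∃! j : {w : W // (2 : ℤ) • w = 0} × R2,
      BE kgens Finset.univ 6 (z - cls j.1.1 (ρ j.2)) := by
  obtain ⟨w, w', hw, hw', y, hy⟩ := decomp hz
  have h2w : (2 : ℤ) • w = 0 := by
    obtain ⟨u, hu⟩ := of_BE h2
    rw [hw, Finset.smul_sum]
    have : ∀ e, (2 : ℤ) • f1 e • z (Ed e) = f1 e • ∑ t, D5 e t • u t := by
      intro e
      rw [← hu e, smul_comm, Pi.smul_apply]
    simp only [this]
    exact f1_bound u
  obtain ⟨s, ⟨v, hv⟩, hs⟩ := hρ w'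
  refine ⟨(⟨w, h2w⟩, s), ?_, ?_⟩
  · refine BE_of _ _ (fun G hG => ?_) (fun t => y t + b2 t • v)
      (fun t _ => Finset.subset_univ _) (fun e _ => ?_)
    · by_cases h0 : z G = 0
      · exact cls_support w (ρ s) G fun h => hG (by simp [h0, h])
      · exact ZE_support hz G h0
    · rw [Pi.sub_apply, hy e, cls_apply]
      simp only [smul_add, Finset.sum_add_distrib]
      have h3 : ∑ t, D5 e t • b2 t • v = z2 e • (w' - ρ s) := by
        rw [hv, smul_smul, mul_comm, mat6, Finset.sum_smul]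
        simp only [mul_smul]
      rw [h3, smul_sub]
      abel
  · rintro ⟨⟨u, hu⟩, s'⟩ hB
    obtain ⟨x, hx⟩ := of_BE hB
    simp only [Pi.sub_apply, cls_apply] at hx
    have h4 : w - u = 0 := by
      have h5 : ∑ e, f1 e • (z (Ed e) - (z1 e • u + z2 e • ρ s')) = w - u := by
        simp only [smul_sub, Finset.sum_sub_distrib]
        rw [← hw, f1_cls]
      rw [← h5]
      simp only [hx]
      exact f1_bound x
    have h6 : w' - ρ s' = (2 : ℤ) • ∑ t, g2 t • x t := by
      have h5 : ∑ e, f2 e • (z (Ed e) - (z1 e • u + z2 e • ρ s')) = w' - ρ s' := by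
        simp only [smul_sub, Finset.sum_sub_distrib]
        rw [← hw', f2_cls]
      rw [← h5]
      simp only [hx]
      exact f2_bound x
    have h7 : s' = s := hs s' ⟨_, h6⟩
    have h8 : u = w := (sub_eq_zero.1 h4).symm
    subst h7
    subst h8
    rfl

end Pool.Agent.Helper7.LY
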