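import Pool.Agent.Helper7.LY.Nerve

/-!
The socle of the cohomology of the complex of bounded functions.
-/

set_option autoImplicit false
set_option linter.unusedSectionVars false

namespace Pool.Agent.Helper7.LY

section transport

variable {ι κ : Type} [LinearOrder ι] [LinearOrder κ] [Fintype ι] [Fintype κ] [Nonempty ι]
  [Nonempty κ] {W : Type} [AddCommGroup W] {gens : ι → Finset κ} {F : Finset κ} {k : ℕ}

lemma ZN.sub {γ γ' : Finset ι → W} (h : ZN gens F k γ) (h' : ZN gens F k γ') :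
    ZN gens F k (γ - γ') := by
  refine ⟨fun A hA => ?_, by rw [cobd_sub, h.2, h'.2, sub_zero]⟩
  by_cases h1 : γ A = 0
  · refine h'.1 A fun h2 => hA ?_
    simp [h1, h2]
  · exact h.1 A h1

lemma ZN.zsmul {γ : Finset ι → W} (h : ZN gens F k γ) (m : ℤ) : ZN gens F k (m • γ) := by
  refine ⟨fun A hA => h.1 A fun h1 => hA (by simp [h1]), ?_⟩
  rw [cobd_zsmul, h.2, smul_zero]

lemma ZE.sub {e e' : Finset κ → W} (h : ZE gens F k e) (h' : ZE gens F k e') :
    ZE gens F k (e - e') := by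
  refine ⟨fun A hA => ?_, fun G hG => by
    rw [cobd_sub, Pi.sub_apply, h.2 G hG, h'.2 G hG, sub_zero]⟩
  by_cases h1 : e A = 0
  · refine h'.1 A fun h2 => hA ?_
    simp [h1, h2]
  · exact h.1 A h1

lemma ZE.zsmul {e : Finset κ → W} (h : ZE gens F k e) (m : ℤ) : ZE gens F k (m • e) := by
  refine ⟨fun A hA => h.1 A fun h1 => hA (by simp [h1]), fun G hG => ?_⟩
  rw [cobd_zsmul, Pi.smul_apply, h.2 G hG, smul_zero]

lemma Cor.two {γ : Finset ι → W} {e : Finset κ → W} (h : Cor gens F γ e) :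
    Cor gens F ((2 : ℤ) • γ) ((2 : ℤ) • e) := by
  rw [two_smul, two_smul]
  exact h.add h

lemma BN_iff_of_cor {γ : Finset ι → W} {e : Finset κ → W} (hγ : ZN gens F k γ)
    (he : ZE gens F k e) (h : Cor gens F γ e) : BN gens F k γ ↔ BE gens F k e := by
  constructor
  · intro hB
    have h1 := (cor_of_BN (κ := κ) hB).sub h
    simp only [sub_self, zero_sub] at h1
    obtain ⟨w, h2, h3⟩ := BE_of_cor (by
      have := he.zsmul (-1)
      simpa using this) h1
    refine ⟨-w, fun G hG => h2 G fun h => hG (by simp [h]), fun G hG => ?_⟩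
    have h4 := h3 G hG
    have h5 : cobd (-w) = - cobd w := by
      have := cobd_zsmul (-1) w
      simpa using this
    rw [h5, Pi.neg_apply, ← h4]
    simp
  · intro hB
    have h1 := h.sub (cor_of_BE (ι := ι) hB)
    simp only [sub_self, sub_zero] at h1
    exact BN_of_cor hγ h1

/-- Transport of the classification of the classes killed by two. -/
lemma transport {J : Type} (e : J → Finset κ → W) (h1 : ∀ j, ZE gens F k (e j))
    (h2 : ∀ j, BE gens F k ((2 : ℤ) • e j))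
    (h3 : ∀ z, ZE gens F k z → BE gens F k ((2 : ℤ) • z) → ∃! j, BE gens F k (z - e j)) :
    ∃ γ : J → Finset ι → W, (∀ j, ZN gens F k (γ j)) ∧ (∀ j, BN gens F k ((2 : ℤ) • γ j)) ∧
      ∀ z, ZN gens F k z → BN gens F k ((2 : ℤ) • z) → ∃! j, BN gens F k (z - γ j) := by
  choose γ hγ hc using fun j => exists_ZN (ι := ι) (h1 j)
  refine ⟨γ, hγ, fun j => ?_, fun z hz hz2 => ?_⟩
  · exact (BN_iff_of_cor ((hγ j).zsmul 2) ((h1 j).zsmul 2) (hc j).two).2 (h2 j)
  · obtain ⟨y, hy, hyc⟩ := exists_ZE hz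
    obtain ⟨j, hj, hju⟩ := h3 y hy
      ((BN_iff_of_cor (hz.zsmul 2) (hy.zsmul 2) hyc.two).1 hz2)
    refine ⟨j, (BN_iff_of_cor (hz.sub (hγ j)) (hy.sub (h1 j)) (hyc.sub (hc j))).2 hj, ?_⟩
    intro i hi
    exact hju i ((BN_iff_of_cor (hz.sub (hγ i)) (hy.sub (h1 i)) (hyc.sub (hc i))).1 hi)

lemma transport_zero (h : ∀ z : Finset κ → W, ZE gens F k z → BE gens F k z)
    (γ : Finset ι → W) (hγ : ZN gens F k γ) : BN gens F k γ := by
  obtain ⟨y, hy, hyc⟩ := exists_ZE hγ
  exact (BN_iff_of_cor hγ hy hyc).2 (h y hy)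

end transport

section model

variable {n r : ℕ} {K : Type} [AddCommGroup K] (Λ0 : AddSubgroup K)

/-- A bound for the support of a function. -/
def Bdd (N : ℕ) (B : Finset (Fin n)) (f : (Fin n → ℤ) → K) : Prop :=
  ∀ a, f a ≠ 0 → ∀ i, -(N : ℤ) ≤ a i ∧ (i ∉ B → 0 ≤ a i)

lemma Bdd.mono {N N' : ℕ} (hN : N ≤ N') {B B' : Finset (Fin n)} (hB : B ⊆ B')
    {f : (Fin n → ℤ) → K} (h : Bdd N B f) : Bdd N' B' f := by
  intro a ha i
  obtain ⟨h1, h2⟩ := h a ha i
  exact ⟨by omega, fun hi => h2 fun h => hi (hB h)⟩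

lemma Bdd.add {N : ℕ} {B : Finset (Fin n)} {f g : (Fin n → ℤ) → K} (h : Bdd N B f)
    (h' : Bdd N B g) : Bdd N B (f + g) := by
  intro a ha
  by_cases h1 : f a = 0
  · exact h' a fun h2 => ha (by simp [h1, h2])
  · exact h a h1

lemma Bdd.neg {N : ℕ} {B : Finset (Fin n)} {f : (Fin n → ℤ) → K} (h : Bdd N B f) :
    Bdd N B (-f) := fun a ha => h a fun h1 => ha (by simp [h1])

/-- Functions with bounded denominators. -/
def L1 (B : Finset (Fin n)) : AddSubgroup ((Fin n → ℤ) → K) where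
  carrier := {f | ∃ N : ℕ, Bdd N B f ∧ ∀ a, (2 : ℤ) ^ N • f a ∈ Λ0}
  zero_mem' := ⟨0, fun a ha => (ha rfl).elim, by simp⟩
  add_mem' := by
    rintro f g ⟨N, h1, h2⟩ ⟨N', h1', h2'⟩
    refine ⟨N + N', (h1.mono (Nat.le_add_right _ _) le_rfl).add
      (h1'.mono (Nat.le_add_left _ _) le_rfl), fun a => ?_⟩
    rw [Pi.add_apply, smul_add]
    refine Λ0.add_mem ?_ ?_
    · rw [pow_add, mul_comm, mul_smul]
      exact Λ0.zsmul_mem (h2 a) _
    · rw [pow_add, mul_smul]
      exact Λ0.zsmul_mem (h2' a) _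
  neg_mem' := by
    rintro f ⟨N, h1, h2⟩
    refine ⟨N, h1.neg, fun a => ?_⟩
    rw [Pi.neg_apply, smul_neg]
    exact Λ0.neg_mem (h2 a)

/-- Functions without denominators. -/
def L0 (B : Finset (Fin n)) : AddSubgroup ((Fin n → ℤ) → K) where
  carrier := {f | ∃ N : ℕ, Bdd N B f ∧ ∀ a, f a ∈ Λ0}
  zero_mem' := ⟨0, fun a ha => (ha rfl).elim, fun a => Λ0.zero_mem⟩
  add_mem' := by
    rintro f g ⟨N, h1, h2⟩ ⟨N', h1', h2'⟩
    exact ⟨N + N', (h1.mono (Nat.le_add_right _ _) le_rfl).add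
      (h1'.mono (Nat.le_add_left _ _) le_rfl), fun a => Λ0.add_mem (h2 a) (h2' a)⟩
  neg_mem' := by
    rintro f ⟨N, h1, h2⟩
    exact ⟨N, h1.neg, fun a => Λ0.neg_mem (h2 a)⟩

variable (gens : Fin r → Finset (Fin n))

/-- Cochains with bounded denominators, of degree `d` with `d + s = k`. -/
def C1 (s k : ℕ) : AddSubgroup (Finset (Fin r) → (Fin n → ℤ) → K) where
  carrier := {β | ∀ A, β A ∈ L1 Λ0 (A.biUnion gens) ∧ (A.card + s ≠ k → β A = 0)}
  zero_mem' := fun A => ⟨(L1 Λ0 _).zero_mem, fun _ => rfl⟩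
  add_mem' := fun h h' A => ⟨(L1 Λ0 (A.biUnion gens)).add_mem (h A).1 (h' A).1, fun hA => by
    simp [(h A).2 hA, (h' A).2 hA]⟩
  neg_mem' := fun h A => ⟨(L1 Λ0 (A.biUnion gens)).neg_mem (h A).1, fun hA => by simp [(h A).2 hA]⟩

/-- Cochains without denominators. -/
def C0 (k : ℕ) : AddSubgroup (Finset (Fin r) → (Fin n → ℤ) → K) where
  carrier := {β | ∀ A, β A ∈ L0 Λ0 (A.biUnion gens) ∧ (A.card ≠ k → β A = 0)}
  zero_mem' := fun A => ⟨(L0 Λ0 _).zero_mem, fun _ => rfl⟩
  add_mem' := fun h h' A => ⟨(L0 Λ0 (A.biUnion gens)).add_mem (h A).1 (h' A).1, fun hA => by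
    simp [(h A).2 hA, (h' A).2 hA]⟩
  neg_mem' := fun h A => ⟨(L0 Λ0 (A.biUnion gens)).neg_mem (h A).1, fun hA => by simp [(h A).2 hA]⟩

/-- Cocycles. -/
def Zc (k : ℕ) : AddSubgroup (Finset (Fin r) → (Fin n → ℤ) → K) where
  carrier := {β | β ∈ C1 Λ0 gens 0 k ∧ ∀ B : Finset (Fin r), cobd β B ∈ L0 Λ0 (B.biUnion gens)}
  zero_mem' := ⟨(C1 Λ0 gens 0 k).zero_mem, fun B => by
    rw [cobd_zero]
    exact (L0 Λ0 _).zero_mem⟩
  add_mem' := fun h h' => ⟨(C1 Λ0 gens 0 k).add_mem h.1 h'.1, fun B => by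
    rw [cobd_add]
    exact (L0 Λ0 _).add_mem (h.2 B) (h'.2 B)⟩
  neg_mem' := fun {β} h => ⟨(C1 Λ0 gens 0 k).neg_mem h.1, fun B => by
    have : cobd (-β) = - cobd β := by simpa using cobd_zsmul (-1) β
    rw [this]
    exact (L0 Λ0 _).neg_mem (h.2 B)⟩

/-- Coboundaries. -/
def Bc (k : ℕ) : AddSubgroup (Finset (Fin r) → (Fin n → ℤ) → K) where
  carrier := {β | ∃ β0 ∈ C0 Λ0 gens k, ∃ η ∈ C1 Λ0 gens 1 k, β = β0 + cobd η}
  zero_mem' := ⟨0, (C0 Λ0 gens k).zero_mem, 0, (C1 Λ0 gens 1 k).zero_mem, by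
    rw [cobd_zero, add_zero]⟩
  add_mem' := by
    rintro _ _ ⟨β0, h1, η, h2, rfl⟩ ⟨β0', h1', η', h2', rfl⟩
    exact ⟨β0 + β0', (C0 Λ0 gens k).add_mem h1 h1', η + η', (C1 Λ0 gens 1 k).add_mem h2 h2', by
      rw [cobd_add]
      abel⟩
  neg_mem' := by
    rintro _ ⟨β0, h1, η, h2, rfl⟩
    refine ⟨-β0, (C0 Λ0 gens k).neg_mem h1, -η, (C1 Λ0 gens 1 k).neg_mem h2, ?_⟩
    have : cobd (-η) = - cobd η := by simpa using cobd_zsmul (-1) η
    rw [this]
    abel

/-- Multiplication by the variable `X i`. -/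
def shift (i : Fin n) (β : Finset (Fin r) → (Fin n → ℤ) → K) :
    Finset (Fin r) → (Fin n → ℤ) → K := fun A a => β A (a - Pi.single i 1)

/-- The elements of the socle. -/
def Soc (k : ℕ) (β : Finset (Fin r) → (Fin n → ℤ) → K) : Prop :=
  β ∈ Zc Λ0 gens k ∧ (2 : ℤ) • β ∈ Bc Λ0 gens k ∧ ∀ i, shift i β ∈ Bc Λ0 gens k

variable {Λ0 gens}

lemma cobd_apply (β : Finset (Fin r) → (Fin n → ℤ) → K) (A : Finset (Fin r)) (a : Fin n → ℤ) :
    cobd β A a = cobd (fun A => β A a) A := by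
  simp [cobd]

/-- The function supported at the point `a`. -/
def del (a : Fin n → ℤ) (g : Finset (Fin r) → K) : Finset (Fin r) → (Fin n → ℤ) → K :=
  fun A b => if b = a then g A else 0

lemma cobd_del (a : Fin n → ℤ) (g : Finset (Fin r) → K) : cobd (del a g) = del a (cobd g) := by
  funext A b
  rw [cobd_apply]
  unfold del
  split_ifs with h
  · rfl
  · exact congrFun cobd_zero A

/-- A bound for a point. -/
def nbd (a : Fin n → ℤ) : ℕ := ∑ i, (a i).natAbs

lemma Bdd_single (a : Fin n → ℤ) {B : Finset (Fin n)} (h : ∀ i, a i < 0 → i ∈ B) (w : K) :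
    Bdd (nbd a) B (fun b => if b = a then w else 0) := by
  intro b hb i
  have hba : b = a := by
    by_contra hne
    exact hb (if_neg hne)
  subst hba
  refine ⟨?_, fun hi => not_lt.1 fun h' => hi (h i h')⟩
  have : (b i).natAbs ≤ nbd b :=
    Finset.single_le_sum (f := fun i => (b i).natAbs) (fun _ _ => Nat.zero_le _)
      (Finset.mem_univ i)
  omega

lemma del_mem_L0 (a : Fin n → ℤ) {B : Finset (Fin n)} (g : Finset (Fin r) → K)
    (A : Finset (Fin r)) (h : g A ≠ 0 → ∀ i, a i < 0 → i ∈ B) (hg : g A ∈ Λ0) :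
    del a g A ∈ L0 Λ0 B := by
  by_cases h0 : g A = 0
  · have : del a g A = 0 := by
      funext b
      simp [del, h0]
    rw [this]
    exact (L0 Λ0 B).zero_mem
  · refine ⟨nbd a, Bdd_single a (h h0) _, fun b => ?_⟩
    unfold del
    split_ifs
    · exact hg
    · exact Λ0.zero_mem

lemma del_mem_L1 (htor : ∀ w : K, ∃ N : ℕ, (2 : ℤ) ^ N • w ∈ Λ0) (a : Fin n → ℤ)
    {B : Finset (Fin n)} (g : Finset (Fin r) → K)
    (A : Finset (Fin r)) (h : g A ≠ 0 → ∀ i, a i < 0 → i ∈ B) :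
    del a g A ∈ L1 Λ0 B := by
  by_cases h0 : g A = 0
  · have : del a g A = 0 := by
      funext b
      simp [del, h0]
    rw [this]
    exact (L1 Λ0 B).zero_mem
  · obtain ⟨N, hN⟩ := htor (g A)
    refine ⟨nbd a + N, (Bdd_single a (h h0) _).mono (Nat.le_add_right _ _) le_rfl, fun b => ?_⟩
    unfold del
    split_ifs
    · rw [pow_add, mul_smul]
      exact Λ0.zsmul_mem hN _
    · simp

/-- Lifting functions with values in the quotient. -/
noncomputable def lift (γ : Finset (Fin r) → K ⧸ Λ0) (A : Finset (Fin r)) : K :=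
  haveI := Classical.dec (γ A = 0)
  if γ A = 0 then 0 else (γ A).out

lemma mk_lift (γ : Finset (Fin r) → K ⧸ Λ0) (A : Finset (Fin r)) :
    ((lift γ A : K) : K ⧸ Λ0) = γ A := by
  unfold lift
  split_ifs with h
  · rw [h]
    rfl
  · exact QuotientAddGroup.out_eq' _

lemma lift_ne {γ : Finset (Fin r) → K ⧸ Λ0} {A : Finset (Fin r)} (h : lift γ A ≠ 0) :
    γ A ≠ 0 := by
  intro h'
  apply h
  unfold lift
  rw [if_pos h']

lemma mk_cobd (g : Finset (Fin r) → K) (A : Finset (Fin r)) :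
    ((cobd g A : K) : K ⧸ Λ0) = cobd (fun A => (g A : K ⧸ Λ0)) A := by
  have := congrFun (cobd_map (QuotientAddGroup.mk' Λ0) g) A
  exact this.symm

lemma mem_iff_mk (w : K) : w ∈ Λ0 ↔ (w : K ⧸ Λ0) = 0 := (QuotientAddGroup.eq_zero_iff w).symm

lemma support_cobd {γ : Finset (Fin r) → K} {P : Finset (Fin r) → Prop}
    (h : ∀ A, γ A ≠ 0 → P A) (hP : ∀ A B, A ⊆ B → P A → P B) (A : Finset (Fin r))
    (hA : cobd γ A ≠ 0) : P A := by
  by_contra hne
  apply hA
  unfold cobd
  refine Finset.sum_eq_zero fun i _ => ?_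
  by_contra h1
  have h2 : γ (A.erase i) ≠ 0 := fun h2 => h1 (by rw [h2, smul_zero])
  exact hne (hP _ _ (Finset.erase_subset _ _) (h _ h2))

lemma card_cobd {γ : Finset (Fin r) → K} {k : ℕ}
    (h : ∀ A, γ A ≠ 0 → A.card + 1 = k) (A : Finset (Fin r))
    (hA : cobd γ A ≠ 0) : A.card = k := by
  by_contra hne
  apply hA
  unfold cobd
  refine Finset.sum_eq_zero fun i hi => ?_
  by_contra h1
  have h2 : γ (A.erase i) ≠ 0 := fun h2 => h1 (by rw [h2, smul_zero])
  have h3 := h _ h2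
  rw [Finset.card_erase_add_one hi] at h3
  exact hne h3

/-- The set of the negative coordinates. -/
def neg (a : Fin n → ℤ) : Finset (Fin n) := Finset.univ.filter fun i => a i < 0

lemma NSet_mono {F : Finset (Fin n)} {A B : Finset (Fin r)} (h : A ⊆ B) (hA : NSet gens F A) :
    NSet gens F B :=
  hA.trans (Finset.biUnion_subset_biUnion_of_subset_left _ h)

/-- A coboundary modulo `Λ0` gives a coboundary of functions supported at a point. -/
lemma del_mem_Bc (htor : ∀ w : K, ∃ N : ℕ, (2 : ℤ) ^ N • w ∈ Λ0) (a : Fin n → ℤ) {k : ℕ}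
    (g : Finset (Fin r) → K) (hg : ∀ A, g A ≠ 0 → A.card = k ∧ NSet gens (neg a) A)
    (hB : BN gens (neg a) k (fun A => (g A : K ⧸ Λ0))) : del a g ∈ Bc Λ0 gens k := by
  obtain ⟨η, h1, h2⟩ := hB
  have hη : ∀ A, lift η A ≠ 0 → A.card + 1 = k ∧ NSet gens (neg a) A := fun A hA =>
    h1 A (lift_ne hA)
  have hneg : ∀ A, NSet gens (neg a) A → ∀ i, a i < 0 → i ∈ A.biUnion gens := by
    intro A hA i hi
    exact hA (by simp [neg, hi])
  have hcob : ∀ A, cobd (lift η) A ≠ 0 → A.card = k ∧ NSet gens (neg a) A := by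
    intro A hA
    exact ⟨card_cobd (fun A hA => (hη A hA).1) A hA,
      support_cobd (fun A hA => (hη A hA).2) (fun A B h h' => NSet_mono h h') A hA⟩
  refine ⟨del a (g - cobd (lift η)), fun A => ⟨?_, fun hA => ?_⟩, del a (lift η),
    fun A => ⟨?_, fun hA => ?_⟩, ?_⟩
  · refine del_mem_L0 a _ A (fun hne => ?_) ?_
    · by_cases h0 : g A = 0
      · have : cobd (lift η) A ≠ 0 := fun h => hne (by simp [h0, h])
        exact hneg A (hcob A this).2
      · exact hneg A (hg A h0).2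
    · rw [mem_iff_mk, Pi.sub_apply, QuotientAddGroup.mk_sub, mk_cobd, sub_eq_zero]
      simp only [mk_lift]
      exact congrFun h2 A
  · funext b
    simp only [del]
    split_ifs
    · have h3 : g A = 0 := by
        by_contra h
        exact hA (hg A h).1
      have h4 : cobd (lift η) A = 0 := by
        by_contra h
        exact hA (hcob A h).1
      simp [h3, h4]
    · rfl
  · exact del_mem_L1 htor a _ A fun hne => hneg A (hη A hne).2
  · funext b
    simp only [del]
    split_ifs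
    · by_contra h
      exact hA (hη A h).1
    · rfl
  · rw [cobd_del]
    funext A b
    simp only [del, Pi.add_apply, Pi.sub_apply]
    split_ifs <;> simp

/-- Evaluation of coboundaries at a point. -/
lemma BN_of_Bc (a : Fin n → ℤ) {k : ℕ} {β : Finset (Fin r) → (Fin n → ℤ) → K}
    (h : β ∈ Bc Λ0 gens k) : BN gens (neg a) k (fun A => (β A a : K ⧸ Λ0)) := by
  obtain ⟨β0, h0, η, h1, rfl⟩ := h
  refine ⟨fun A => (η A a : K ⧸ Λ0), fun A hA => ?_, ?_⟩
  · have hne : η A a ≠ 0 := fun h => hA (by beta_reduce; rw [h]; rfl)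
    constructor
    · by_contra hc
      exact hne (by rw [(h1 A).2 hc]; rfl)
    · obtain ⟨N, hN, _⟩ := (h1 A).1
      intro i hi
      by_contra hi'
      have := (hN a hne i).2 hi'
      simp only [neg, Finset.mem_filter, Finset.mem_univ, true_and] at hi
      omega
  · funext A
    rw [Pi.add_apply, Pi.add_apply, QuotientAddGroup.mk_add]
    obtain ⟨N, _, hN⟩ := (h0 A).1
    rw [(mem_iff_mk _).1 (hN a), zero_add, cobd_apply, mk_cobd]

/-- The point with all coordinates `-1`. -/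
def m1 : Fin n → ℤ := fun _ => -1

lemma neg_m1 : neg (m1 : Fin n → ℤ) = Finset.univ := by
  ext i
  simp [neg, m1]

lemma neg_m1_add (v : Fin n) : neg ((m1 : Fin n → ℤ) + Pi.single v 1) = Finset.univ.erase v := by
  ext i
  by_cases h : i = v
  · subst h
    simp [neg, m1]
  · simp [neg, m1, h]

lemma shift_del (v : Fin n) (a : Fin n → ℤ) (g : Finset (Fin r) → K) :
    shift v (del a g) = del (a + Pi.single v 1) g := by
  funext A b
  simp only [shift, del]
  congr 1
  exact propext sub_eq_iff_eq_add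

/-- An index at which the coordinate is not `-1`. -/
noncomputable def idx [Nonempty (Fin n)] (a : Fin n → ℤ) : Fin n :=
  haveI := Classical.dec (∃ i, a i ≠ -1)
  if h : ∃ i, a i ≠ -1 then h.choose else Classical.arbitrary _

lemma idx_spec [Nonempty (Fin n)] {a : Fin n → ℤ} (h : a ≠ m1) : a (idx a) ≠ -1 := by
  have h' : ∃ i, a i ≠ -1 := by
    by_contra hne
    apply h
    funext i
    by_contra hi
    exact hne ⟨i, hi⟩
  unfold idx
  rw [dif_pos h']
  exact h'.choose_spec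

/-- Reassembling. -/
noncomputable def glue [Nonempty (Fin n)] (η : Fin n → Finset (Fin r) → (Fin n → ℤ) → K)
    (A : Finset (Fin r)) (a : Fin n → ℤ) : K :=
  haveI := Classical.dec (a = m1)
  if a = m1 then 0 else η (idx a) A (a + Pi.single (idx a) 1)

lemma glue_bdd [Nonempty (Fin n)] {η : Fin n → Finset (Fin r) → (Fin n → ℤ) → K}
    {A : Finset (Fin r)} {B : Finset (Fin n)} {N : Fin n → ℕ}
    (h : ∀ i, Bdd (N i) B (η i A)) : Bdd (1 + ∑ i, N i) B (glue η A) := by
  intro a ha j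
  unfold glue at ha
  split_ifs at ha with h1
  · exact (ha rfl).elim
  · set i := idx a with hi
    obtain ⟨h2, h3⟩ := h i _ ha j
    have h4 : N i ≤ ∑ i, N i :=
      Finset.single_le_sum (f := N) (fun _ _ => Nat.zero_le _) (Finset.mem_univ i)
    by_cases hji : j = i
    · subst hji
      have h5 := idx_spec h1
      rw [← hi] at h5
      simp only [Pi.add_apply, Pi.single_eq_same] at h2 h3
      refine ⟨by rw [Nat.cast_add, Nat.cast_one]; omega, fun hj => ?_⟩
      have := h3 hj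
      omega
    · simp only [Pi.add_apply, Pi.single_eq_of_ne hji, add_zero] at h2 h3
      exact ⟨by rw [Nat.cast_add, Nat.cast_one]; omega, h3⟩

lemma glue_L0 [Nonempty (Fin n)] {η : Fin n → Finset (Fin r) → (Fin n → ℤ) → K}
    {A : Finset (Fin r)} {B : Finset (Fin n)}
    (h : ∀ i, η i A ∈ L0 Λ0 B) : glue η A ∈ L0 Λ0 B := by
  choose N h1 h2 using h
  refine ⟨_, glue_bdd h1, fun a => ?_⟩
  unfold glue
  split_ifs
  · exact Λ0.zero_mem
  · exact h2 _ _

lemma glue_L1 [Nonempty (Fin n)] {η : Fin n → Finset (Fin r) → (Fin n → ℤ) → K}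
    {A : Finset (Fin r)} {B : Finset (Fin n)}
    (h : ∀ i, η i A ∈ L1 Λ0 B) : glue η A ∈ L1 Λ0 B := by
  choose N h1 h2 using h
  refine ⟨_, glue_bdd h1, fun a => ?_⟩
  unfold glue
  split_ifs
  · simp
  · have h4 : N (idx a) ≤ ∑ i, N i :=
      Finset.single_le_sum (f := N) (fun _ _ => Nat.zero_le _) (Finset.mem_univ (idx a))
    obtain ⟨m, hm⟩ := Nat.exists_eq_add_of_le h4
    rw [hm, show 1 + (N (idx a) + m) = (1 + m) + N (idx a) by ring, pow_add, mul_smul]
    exact Λ0.zsmul_mem (h2 _ _) _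

lemma reduce [Nonempty (Fin n)] {k : ℕ} {b : Finset (Fin r) → (Fin n → ℤ) → K}
    (h : ∀ i, shift i b ∈ Bc Λ0 gens k) :
    b - del m1 (fun A => b A m1) ∈ Bc Λ0 gens k := by
  choose β0 h0 η h1 h2 using h
  refine ⟨glue β0, fun A => ⟨glue_L0 fun i => (h0 i A).1, fun hA => ?_⟩, glue η,
    fun A => ⟨glue_L1 fun i => (h1 i A).1, fun hA => ?_⟩, ?_⟩
  · funext a
    unfold glue
    split_ifs
    · rfl
    · rw [(h0 _ A).2 hA]
      rfl
  · funext a
    unfold glue
    split_ifs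
    · rfl
    · rw [(h1 _ A).2 hA]
      rfl
  · funext A a
    rw [Pi.add_apply, Pi.add_apply, cobd_apply, Pi.sub_apply, Pi.sub_apply]
    by_cases ha : a = m1
    · subst ha
      have : (fun A => glue η A m1) = 0 := by
        funext A
        simp [glue]
      rw [this, cobd_zero]
      simp [del, glue]
    · have : (fun A => glue η A a) = fun A => η (idx a) A (a + Pi.single (idx a) 1) := by
        funext A
        simp [glue, ha]
      rw [this, ← cobd_apply]
      have h3 := congrFun (congrFun (h2 (idx a)) A) (a + Pi.single (idx a) 1)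
      simp only [shift, add_sub_cancel_right, Pi.add_apply] at h3
      simp only [del, ha, if_false, sub_zero, glue]
      rw [h3]

/-- The classes in the socle. -/
theorem soc_class [Nonempty (Fin n)] (htor : ∀ w : K, ∃ N : ℕ, (2 : ℤ) ^ N • w ∈ Λ0) {k : ℕ}
    {J : Type} (γ : J → Finset (Fin r) → K ⧸ Λ0)
    (h1 : ∀ j, ZN gens Finset.univ k (γ j))
    (h2 : ∀ j, BN gens Finset.univ k ((2 : ℤ) • γ j))
    (h3 : ∀ z : Finset (Fin r) → K ⧸ Λ0, ZN gens Finset.univ k z →
      BN gens Finset.univ k ((2 : ℤ) • z) → ∃! j, BN gens Finset.univ k (z - γ j))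
    (h4 : ∀ v, ∀ z : Finset (Fin r) → K ⧸ Λ0, ZN gens (Finset.univ.erase v) k z →
      BN gens (Finset.univ.erase v) k z) :
    ∃ β : J → Finset (Fin r) → (Fin n → ℤ) → K, (∀ j, Soc Λ0 gens k (β j)) ∧
      ∀ b, Soc Λ0 gens k b → ∃! j, b - β j ∈ Bc Λ0 gens k := by
  have hlift : ∀ j A, lift (γ j) A ≠ 0 → A.card = k ∧ NSet gens Finset.univ A := fun j A hA =>
    (h1 j).1 A (lift_ne hA)
  have hmk : ∀ j, (fun A => ((lift (γ j) A : K) : K ⧸ Λ0)) = γ j := fun j => by
    funext A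
    exact mk_lift _ _
  have hcob : ∀ j A, cobd (lift (γ j)) A ≠ 0 → NSet gens Finset.univ A := fun j A hA =>
    support_cobd (fun A hA => (hlift j A hA).2) (fun A B h h' => NSet_mono h h') A hA
  refine ⟨fun j => del m1 (lift (γ j)), fun j => ⟨⟨fun A => ⟨?_, fun hA => ?_⟩, fun B => ?_⟩,
    ?_, fun v => ?_⟩, fun b hb => ?_⟩
  · exact del_mem_L1 htor _ _ A fun hne i _ => (hlift j A hne).2 (Finset.mem_univ i)
  · funext a
    simp only [del]
    split_ifs
    · by_contra h
      exact hA (by simpa using (hlift j A h).1)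
    · rfl
  · rw [cobd_del]
    refine del_mem_L0 _ _ B (fun hne i _ => hcob j B hne (Finset.mem_univ i)) ?_
    rw [mem_iff_mk, mk_cobd, hmk, (h1 j).2]
    rfl
  · have h5 : (2 : ℤ) • del m1 (lift (γ j)) =
        del (m1 : Fin n → ℤ) ((2 : ℤ) • lift (γ j)) := by
      funext A a
      simp only [del, Pi.smul_apply]
      split_ifs <;> simp
    rw [h5]
    refine del_mem_Bc htor m1 _ (fun A hA => ?_) ?_
    · rw [neg_m1]
      exact hlift j A fun h => hA (by simp [h])
    · rw [neg_m1]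
      have h6 : (fun A => ((((2 : ℤ) • lift (γ j)) A : K) : K ⧸ Λ0)) = (2 : ℤ) • γ j := by
        funext A
        rw [Pi.smul_apply, QuotientAddGroup.mk_zsmul, mk_lift, Pi.smul_apply]
      rw [h6]
      exact h2 j
  · rw [shift_del]
    refine del_mem_Bc htor _ _ (fun A hA => ?_) ?_
    · rw [neg_m1_add]
      exact ⟨(hlift j A hA).1, (Finset.erase_subset _ _).trans (hlift j A hA).2⟩
    · rw [neg_m1_add, hmk]
      refine h4 v _ ⟨fun A hA => ?_, (h1 j).2⟩
      exact ⟨((h1 j).1 A hA).1, (Finset.erase_subset _ _).trans ((h1 j).1 A hA).2⟩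
  · set g : Finset (Fin r) → K := fun A => b A m1 with hg
    have hred := reduce hb.2.2
    have hg0 : ∀ A, g A ≠ 0 → A.card = k ∧ NSet gens Finset.univ A := by
      intro A hA
      obtain ⟨⟨N, hN, _⟩, hk⟩ := hb.1.1 A
      constructor
      · by_contra hc
        exact hA (by simp only [hg]; rw [hk (by simpa using hc)]; rfl)
      · intro i _
        by_contra hi
        have := (hN m1 hA i).2 hi
        simp [m1] at this
    have hZ : ZN gens Finset.univ k (fun A => (g A : K ⧸ Λ0)) := by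
      refine ⟨fun A hA => hg0 A fun h => hA (by beta_reduce; rw [h]; rfl), ?_⟩
      funext A
      rw [← mk_cobd]
      have h5 : cobd g A ∈ Λ0 := by
        obtain ⟨N, _, hN⟩ := hb.1.2 A
        have := hN m1
        rwa [cobd_apply] at this
      exact (mem_iff_mk _).1 h5
    have h2g : BN gens Finset.univ k ((2 : ℤ) • fun A => (g A : K ⧸ Λ0)) := by
      have h5 := BN_of_Bc (m1 : Fin n → ℤ) hb.2.1
      rw [neg_m1] at h5
      exact h5
    obtain ⟨j, hj, hju⟩ := h3 _ hZ h2g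
    have hsub : ∀ j, (fun A => (((g - lift (γ j)) A : K) : K ⧸ Λ0)) =
        (fun A => (g A : K ⧸ Λ0)) - γ j := by
      intro j
      funext A
      rw [Pi.sub_apply, Pi.sub_apply, QuotientAddGroup.mk_sub, mk_lift]
    have hdel : ∀ j, b - del m1 (lift (γ j)) =
        (b - del m1 g) + del m1 (g - lift (γ j)) := by
      intro j
      funext A a
      simp only [del, Pi.add_apply, Pi.sub_apply]
      split_ifs <;> simp
    refine ⟨j, ?_, fun i hi => ?_⟩
    · change b - del m1 (lift (γ j)) ∈ Bc Λ0 gens k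
      rw [hdel]
      refine (Bc Λ0 gens k).add_mem hred (del_mem_Bc htor m1 _ (fun A hA => ?_) ?_)
      · rw [neg_m1]
        by_cases h0 : g A = 0
        · exact hlift j A fun h => hA (by simp [h0, h])
        · exact hg0 A h0
      · rw [neg_m1, hsub]
        exact hj
    · apply hju
      have h5 : del m1 (g - lift (γ i)) ∈ Bc Λ0 gens k := by
        have h6 : del m1 (g - lift (γ i)) = (b - del m1 (lift (γ i))) - (b - del m1 g) := by
          rw [hdel]
          abel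
        rw [h6]
        exact (Bc Λ0 gens k).sub_mem hi hred
      have h7 := BN_of_Bc (m1 : Fin n → ℤ) h5
      rw [neg_m1] at h7
      rw [← hsub]
      simpa [del] using h7

end model

end Pool.Agent.Helper7.LY
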