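import Pool.Agent.Helper7.LY.Comb

/-!
Comparison of the complex of families of generators with the complex of faces.
-/

set_option autoImplicit false
set_option linter.unusedSectionVars false

namespace Pool.Agent.Helper7.LY

section nerve

variable {ι κ : Type} [LinearOrder ι] [LinearOrder κ] {W : Type} [AddCommGroup W]

lemma tot_sub (c c' : Finset ι → Finset κ → W) : tot (c - c') = tot c - tot c' := by
  rw [← dd_par, dd_sub]

lemma tot_add (c c' : Finset ι → Finset κ → W) : tot (c + c') = tot c + tot c' := by
  rw [← dd_par, dd_add]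

lemma tot_zero : tot (0 : Finset ι → Finset κ → W) = 0 := by
  have := tot_sub (0 : Finset ι → Finset κ → W) 0
  simpa using this

lemma tot_neg (c : Finset ι → Finset κ → W) : tot (-c) = - tot c := by
  have := tot_sub 0 c
  simpa [tot_zero] using this

variable (gens : ι → Finset κ) (F : Finset κ)

/-- The pairs on which the double complex lives. -/
def Al (A : Finset ι) (G : Finset κ) : Prop := G ⊆ F ∧ Disjoint (A.biUnion gens) G

/-- The condition on the families of generators. -/
def NSet (A : Finset ι) : Prop := F ⊆ A.biUnion gens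

/-- The condition on the complements of faces. -/
def ESet (G : Finset κ) : Prop := G ⊆ F ∧ ∀ j, ¬ Disjoint (gens j) G

/-- Cocycles on families of generators. -/
def ZN (k : ℕ) (γ : Finset ι → W) : Prop :=
  (∀ A, γ A ≠ 0 → A.card = k ∧ NSet gens F A) ∧ cobd γ = 0

/-- Coboundaries on families of generators. -/
def BN (k : ℕ) (γ : Finset ι → W) : Prop :=
  ∃ η : Finset ι → W, (∀ A, η A ≠ 0 → A.card + 1 = k ∧ NSet gens F A) ∧ γ = cobd η

/-- Cocycles on complements of faces. -/
def ZE (k : ℕ) (e : Finset κ → W) : Prop :=
  (∀ G, e G ≠ 0 → G.card = k ∧ ESet gens F G) ∧ ∀ G ⊆ F, cobd e G = 0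

/-- Coboundaries on complements of faces. -/
def BE (k : ℕ) (e : Finset κ → W) : Prop :=
  ∃ w : Finset κ → W, (∀ G, w G ≠ 0 → G.card + 1 = k ∧ ESet gens F G) ∧
    ∀ G ⊆ F, e G = cobd w G

/-- Correspondence of cocycles. -/
def Cor (γ : Finset ι → W) (e : Finset κ → W) : Prop :=
  ∃ y : Finset ι → Finset κ → W, ∀ A G, Al gens F A G →
    (if G = ∅ then γ A else 0) - (if A = ∅ then e G else 0) = tot y A G

variable {gens F}

lemma Al.erase_left {A : Finset ι} {G : Finset κ} (h : Al gens F A G) (i : ι) :
    Al gens F (A.erase i) G :=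
  ⟨h.1, h.2.mono_left (Finset.biUnion_subset_biUnion_of_subset_left _ (Finset.erase_subset _ _))⟩

lemma Al.erase_right {A : Finset ι} {G : Finset κ} (h : Al gens F A G) (i : κ) :
    Al gens F A (G.erase i) :=
  ⟨(Finset.erase_subset _ _).trans h.1, h.2.mono_right (Finset.erase_subset _ _)⟩

lemma Al.disj {A : Finset ι} {G : Finset κ} (h : Al gens F A G) {j : ι} (hj : j ∈ A) :
    Disjoint (gens j) G :=
  h.2.mono_left (Finset.subset_biUnion_of_mem gens hj)

lemma Al.empty_left {G : Finset κ} (h : G ⊆ F) : Al gens F (∅ : Finset ι) G :=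
  ⟨h, by simp⟩

lemma Al.empty_right (A : Finset ι) : Al gens F A ∅ := ⟨by simp, by simp⟩

lemma Al.eq_empty {A : Finset ι} {G : Finset κ} (h : Al gens F A G) (hN : NSet gens F A) :
    G = ∅ := by
  rw [Finset.eq_empty_iff_forall_notMem]
  intro i hi
  exact Finset.disjoint_left.1 h.2 (hN (h.1 hi)) hi

lemma Cor.sub {γ γ' : Finset ι → W} {e e' : Finset κ → W} (h : Cor gens F γ e)
    (h' : Cor gens F γ' e') : Cor gens F (γ - γ') (e - e') := by
  obtain ⟨y, hy⟩ := h
  obtain ⟨y', hy'⟩ := h'
  refine ⟨y - y', fun A G hA => ?_⟩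
  rw [tot_sub]
  simp only [Pi.sub_apply]
  rw [← hy A G hA, ← hy' A G hA]
  split_ifs <;> abel

lemma Cor.add {γ γ' : Finset ι → W} {e e' : Finset κ → W} (h : Cor gens F γ e)
    (h' : Cor gens F γ' e') : Cor gens F (γ + γ') (e + e') := by
  obtain ⟨y, hy⟩ := h
  obtain ⟨y', hy'⟩ := h'
  refine ⟨y + y', fun A G hA => ?_⟩
  rw [tot_add]
  simp only [Pi.add_apply]
  rw [← hy A G hA, ← hy' A G hA]
  split_ifs <;> abel

section

variable [Fintype ι] [Fintype κ]

/-- The homogeneous component. -/
def comp (k : ℕ) (y : Finset ι → Finset κ → W) : Finset ι → Finset κ → W := fun A G =>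
  if A.card + G.card = k then y A G else 0

omit [Fintype ι] [Fintype κ] in
lemma tot_comp (k : ℕ) (y : Finset ι → Finset κ → W) (A : Finset ι) (G : Finset κ) :
    tot (fun A G => if A.card + G.card + 1 = k then y A G else 0) A G =
      if A.card + G.card = k then tot y A G else 0 := by
  unfold tot
  have h1 : cobd (fun A => if A.card + G.card + 1 = k then y A G else 0) A =
      if A.card + G.card = k then cobd (fun A => y A G) A else 0 := by
    unfold cobd
    split_ifs with h
    · refine Finset.sum_congr rfl fun i hi => ?_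
      have : (A.erase i).card + G.card + 1 = k := by
        rw [Finset.card_erase_of_mem hi]
        have := Finset.card_pos.2 ⟨i, hi⟩
        omega
      simp [this]
    · refine Finset.sum_eq_zero fun i hi => ?_
      have : ¬ (A.erase i).card + G.card + 1 = k := by
        rw [Finset.card_erase_of_mem hi]
        have := Finset.card_pos.2 ⟨i, hi⟩
        omega
      simp [this]
  have h2 : cobd (fun G => if A.card + G.card + 1 = k then y A G else 0) G =
      if A.card + G.card = k then cobd (y A) G else 0 := by
    unfold cobd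
    split_ifs with h
    · refine Finset.sum_congr rfl fun i hi => ?_
      have : A.card + (G.erase i).card + 1 = k := by
        rw [Finset.card_erase_of_mem hi]
        have := Finset.card_pos.2 ⟨i, hi⟩
        omega
      simp [this]
    · refine Finset.sum_eq_zero fun i hi => ?_
      have : ¬ A.card + (G.erase i).card + 1 = k := by
        rw [Finset.card_erase_of_mem hi]
        have := Finset.card_pos.2 ⟨i, hi⟩
        omega
      simp [this]
  rw [h1, h2]
  split_ifs <;> simp

lemma rows [Nonempty ι] (z : Finset ι → Finset κ → W)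
    (hz : ∀ A G, Al gens F A G → (∃ j, Disjoint (gens j) G) → tot z A G = 0) :
    ∃ y : Finset ι → Finset κ → W, ∀ A G, Al gens F A G → (∃ j, Disjoint (gens j) G) →
      z A G = tot y A G := by
  classical
  obtain ⟨y, hy⟩ := exact_rows (W := W)
      (fun A G => Al gens F A G ∧ ∃ j, Disjoint (gens j) G)
      (fun G => if hG : ∃ j, Disjoint (gens j) G then hG.choose else Classical.arbitrary ι)
      (fun A G hA i _ => ⟨hA.1.erase_right i, hA.2.imp fun j hj =>
        hj.mono_right (Finset.erase_subset _ _)⟩)
      (fun A G hA => by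
        refine ⟨⟨hA.1.1, ?_⟩, hA.2⟩
        rw [dif_pos hA.2, Finset.biUnion_insert, Finset.disjoint_union_left]
        exact ⟨hA.2.choose_spec, hA.1.2⟩)
      z (fun A G hA => hz A G hA.1 hA.2)
  exact ⟨y, fun A G h h' => hy A G ⟨h, h'⟩⟩

lemma cols [Nonempty κ] (z : Finset ι → Finset κ → W)
    (hz : ∀ A G, Al gens F A G → ¬ NSet gens F A → tot z A G = 0) :
    ∃ y : Finset ι → Finset κ → W, ∀ A G, Al gens F A G → ¬ NSet gens F A →
      z A G = tot y A G := by
  classical
  have hN : ∀ A, ¬ NSet gens F A → ∃ i, i ∈ F ∧ i ∉ A.biUnion gens := by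
    intro A h
    unfold NSet at h
    rw [Finset.not_subset] at h
    exact h
  obtain ⟨y, hy⟩ := exact_cols (W := W)
      (fun A G => Al gens F A G ∧ ¬ NSet gens F A)
      (fun A => if hA : ¬ NSet gens F A then (hN A hA).choose else Classical.arbitrary κ)
      (fun A G hA i _ => ⟨hA.1.erase_left i, fun h => hA.2 (h.trans
        (Finset.biUnion_subset_biUnion_of_subset_left _ (Finset.erase_subset _ _)))⟩)
      (fun A G hA => by
        refine ⟨⟨?_, ?_⟩, hA.2⟩
        · rw [dif_pos hA.2, Finset.insert_subset_iff]
          exact ⟨(hN A hA.2).choose_spec.1, hA.1.1⟩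
        · rw [dif_pos hA.2, Finset.disjoint_insert_right]
          exact ⟨(hN A hA.2).choose_spec.2, hA.1.2⟩)
      z (fun A G hA => hz A G hA.1 hA.2)
  exact ⟨y, fun A G h h' => hy A G ⟨h, h'⟩⟩

/-- The function on pairs given by a function on families of generators. -/
def zN (γ : Finset ι → W) : Finset ι → Finset κ → W := fun A G => if G = ∅ then γ A else 0

/-- The function on pairs given by a function on complements of faces. -/
def zE (e : Finset κ → W) : Finset ι → Finset κ → W := fun A G => if A = ∅ then e G else 0

lemma tot_zN {γ : Finset ι → W} (h : ∀ A, γ A ≠ 0 → NSet gens F A) (A : Finset ι)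
    (G : Finset κ) (hA : Al gens F A G) :
    tot (zN γ) A G = zN (cobd γ) A G := by
  unfold tot
  by_cases hG : G = ∅
  · subst hG
    have h1 : (fun A => (zN γ : Finset ι → Finset κ → W) A ∅) = γ := by
      funext A
      simp [zN]
    rw [h1]
    simp [cobd, zN]
  · have h1 : (fun A => (zN γ : Finset ι → Finset κ → W) A G) = 0 := by
      funext A
      simp [zN, hG]
    rw [h1, cobd_zero]
    have h2 : cobd (zN γ A) G = 0 := by
      unfold cobd
      refine Finset.sum_eq_zero fun i hi => ?_
      by_cases hG' : G.erase i = ∅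
      · have hγ : γ A = 0 := by
          by_contra hne
          have := h A hne (hA.1 hi)
          exact Finset.disjoint_left.1 hA.2 this hi
        simp [zN, hγ]
      · simp [zN, hG']
    rw [h2]
    simp [zN, hG]

lemma tot_zE {e : Finset κ → W} (h : ∀ G, e G ≠ 0 → ESet gens F G) (A : Finset ι)
    (G : Finset κ) (hA : Al gens F A G) :
    tot (zE e) A G = zE (cobd e) A G := by
  unfold tot
  by_cases hAe : A = ∅
  · subst hAe
    have h1 : (zE e : Finset ι → Finset κ → W) ∅ = e := by
      funext A
      simp [zE]
    rw [h1]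
    simp [cobd, zE, par]
  · have h1 : (zE e : Finset ι → Finset κ → W) A = 0 := by
      funext G
      simp [zE, hAe]
    rw [h1, cobd_zero]
    have h2 : cobd (fun A => (zE e : Finset ι → Finset κ → W) A G) A = 0 := by
      unfold cobd
      refine Finset.sum_eq_zero fun i hi => ?_
      by_cases hA' : A.erase i = ∅
      · have he : e G = 0 := by
          by_contra hne
          exact (h G hne).2 i (hA.disj hi)
        simp [zE, he]
      · simp [zE, hA']
    rw [h2]
    simp [zE, hAe]

lemma exists_ZE [Nonempty ι] {k : ℕ} {γ : Finset ι → W} (h : ZN gens F k γ) :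
    ∃ e : Finset κ → W, ZE gens F k e ∧ Cor gens F γ e := by
  classical
  have hz0 : ∀ A G, Al gens F A G → tot (zN γ) A G = 0 := by
    intro A G hA
    rw [tot_zN (fun A hA => (h.1 A hA).2) A G hA, h.2]
    simp [zN]
  obtain ⟨y, hy⟩ := rows (gens := gens) (F := F) (zN γ) (fun A G hA _ => hz0 A G hA)
  set y' : Finset ι → Finset κ → W := fun A G =>
    if A.card + G.card + 1 = k then y A G else 0 with hy'
  set d : Finset ι → Finset κ → W := zN γ - tot y' with hd
  have hda : ∀ A G, d A G = zN γ A G - tot y' A G := fun A G => rfl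
  set e : Finset κ → W := fun G =>
    if ESet gens F G then d ∅ G else 0 with he
  have hzk : ∀ A G, (zN γ : Finset ι → Finset κ → W) A G =
      if A.card + G.card = k then zN γ A G else 0 := by
    intro A G
    split_ifs with hk
    · rfl
    · unfold zN
      split_ifs with hG
      · subst hG
        by_contra hne
        exact hk (by simpa using (h.1 A hne).1)
      · rfl
  have hmain : ∀ A G, Al gens F A G → d A G = zE e A G := by
    intro A G hA
    have htr : tot y' A G = if A.card + G.card = k then tot y A G else 0 := tot_comp k y A G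
    by_cases hj : ∃ j, Disjoint (gens j) G
    · have h1 : d A G = 0 := by
        rw [hda, htr, hzk A G, hy A G hA hj, sub_self]
      rw [h1]
      unfold zE
      split_ifs with hAe
      · have : ¬ ESet gens F G := fun hE => by
          obtain ⟨j, hj⟩ := hj
          exact hE.2 j hj
        simp [he, this]
      · rfl
    · have hAe : A = ∅ := by
        rw [Finset.eq_empty_iff_forall_notMem]
        intro j hjA
        exact hj ⟨j, hA.disj hjA⟩
      subst hAe
      have hE : ESet gens F G := ⟨hA.1, fun j hd => hj ⟨j, hd⟩⟩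
      simp [zE, he, hE]
  refine ⟨e, ⟨?_, ?_⟩, y', fun A G hA => ?_⟩
  · intro G hG
    have hE : ESet gens F G := by
      by_contra hE
      exact hG (by simp [he, hE])
    refine ⟨?_, hE⟩
    by_contra hk
    apply hG
    simp only [he, if_pos hE]
    rw [hda, hzk, show tot y' ∅ G = if (∅ : Finset ι).card + G.card = k then tot y ∅ G else 0 from
      tot_comp k y ∅ G]
    simp [hk]
  · intro G hG
    have h1 : tot (zE e : Finset ι → Finset κ → W) ∅ G = cobd e G := by
      rw [tot_zE (gens := gens) (F := F) (fun G hG => by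
        by_contra hE
        exact hG (by simp [he, hE])) ∅ G (Al.empty_left hG)]
      simp [zE]
    rw [← h1]
    have h2 : tot (zE e : Finset ι → Finset κ → W) ∅ G = tot d (∅ : Finset ι) G := by
      have h3 : ∀ c : Finset ι → Finset κ → W, tot c ∅ G = cobd (c ∅) G := by
        intro c
        simp [tot, cobd, par]
      rw [h3, h3]
      unfold cobd
      refine Finset.sum_congr rfl fun i hi => ?_
      rw [hmain ∅ _ (Al.empty_left ((Finset.erase_subset _ _).trans hG))]
    rw [h2, hd, tot_sub, tot_tot, sub_zero, hz0 _ _ (Al.empty_left hG)]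
  · have := hmain A G hA
    rw [hda] at this
    change zN γ A G - zE e A G = _
    rw [← this]
    abel

lemma exists_ZN [Nonempty κ] {k : ℕ} {e : Finset κ → W} (h : ZE gens F k e) :
    ∃ γ : Finset ι → W, ZN gens F k γ ∧ Cor gens F γ e := by
  classical
  have hz0 : ∀ A G, Al gens F A G → tot (zE e) A G = 0 := by
    intro A G hA
    rw [tot_zE (fun G hG => (h.1 G hG).2) A G hA]
    unfold zE
    split_ifs
    · exact h.2 G hA.1
    · rfl
  obtain ⟨y, hy⟩ := cols (gens := gens) (F := F) (zE e) (fun A G hA _ => hz0 A G hA)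
  set y' : Finset ι → Finset κ → W := fun A G =>
    if A.card + G.card + 1 = k then y A G else 0 with hy'
  set d : Finset ι → Finset κ → W := zE e - tot y' with hd
  have hda : ∀ A G, d A G = zE e A G - tot y' A G := fun A G => rfl
  set γ : Finset ι → W := fun A =>
    if NSet gens F A then d A ∅ else 0 with he
  have hzk : ∀ A G, (zE e : Finset ι → Finset κ → W) A G =
      if A.card + G.card = k then zE e A G else 0 := by
    intro A G
    split_ifs with hk
    · rfl
    · unfold zE
      split_ifs with hG
      · subst hG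
        by_contra hne
        exact hk (by simpa using (h.1 G hne).1)
      · rfl
  have hmain : ∀ A G, Al gens F A G → d A G = zN γ A G := by
    intro A G hA
    have htr : tot y' A G = if A.card + G.card = k then tot y A G else 0 := tot_comp k y A G
    by_cases hj : NSet gens F A
    · have hG : G = ∅ := hA.eq_empty hj
      subst hG
      simp [zN, he, hj]
    · have h1 : d A G = 0 := by
        rw [hda, htr, hzk A G, hy A G hA hj, sub_self]
      rw [h1]
      unfold zN
      split_ifs with hAe
      · simp [he, hj]
      · rfl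
  have htotN : ∀ A, tot (zN γ : Finset ι → Finset κ → W) A ∅ = cobd γ A := by
    intro A
    rw [tot_zN (gens := gens) (F := F) (fun A hA => by
      by_contra hE
      exact hA (by simp [he, hE])) A ∅ (Al.empty_right A)]
    simp [zN]
  refine ⟨γ, ⟨?_, ?_⟩, -y', fun A G hA => ?_⟩
  · intro A hA
    have hE : NSet gens F A := by
      by_contra hE
      exact hA (by simp [he, hE])
    refine ⟨?_, hE⟩
    by_contra hk
    apply hA
    simp only [he, if_pos hE]
    rw [hda, hzk, show tot y' A ∅ = if A.card + (∅ : Finset κ).card = k then tot y A ∅ else 0 from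
      tot_comp k y A ∅]
    simp [hk]
  · funext A
    rw [← htotN A]
    have h2 : tot (zN γ : Finset ι → Finset κ → W) A ∅ = tot d A (∅ : Finset κ) := by
      have h3 : ∀ c : Finset ι → Finset κ → W, tot c A ∅ = cobd (fun A => c A ∅) A := by
        intro c
        simp [tot, cobd]
      rw [h3, h3]
      unfold cobd
      refine Finset.sum_congr rfl fun i hi => ?_
      beta_reduce
      rw [hmain _ ∅ (Al.empty_right _)]
    rw [h2, hd, tot_sub, tot_tot, sub_zero, hz0 _ _ (Al.empty_right A)]
    rfl
  · have := hmain A G hA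
    rw [hda] at this
    change zN γ A G - zE e A G = _
    rw [← this, tot_neg, Pi.neg_apply, Pi.neg_apply]
    abel

lemma BN_of_cor [Nonempty κ] {k : ℕ} {γ : Finset ι → W} (h : ZN gens F k γ)
    (hc : Cor gens F γ (0 : Finset κ → W)) : BN gens F k γ := by
  classical
  obtain ⟨y, hy⟩ := hc
  have hy1 : ∀ A G, Al gens F A G → tot y A G = zN γ A G := by
    intro A G hA
    rw [← hy A G hA]
    simp [zN]
  obtain ⟨u, hu⟩ := cols (gens := gens) (F := F) y (fun A G hA hN => by
    rw [hy1 A G hA]
    unfold zN
    split_ifs
    · by_contra hne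
      exact hN (h.1 A hne).2
    · rfl)
  set η : Finset ι → W := fun A =>
    if A.card + 1 = k ∧ NSet gens F A then (y - tot u) A ∅ else 0 with hη
  refine ⟨η, ?_, ?_⟩
  · intro A hA
    by_contra hne
    exact hA (by simp only [hη, if_neg hne])
  · funext A
    have h1 : tot (y - tot u) A ∅ = γ A := by
      rw [tot_sub, tot_tot, sub_zero, hy1 A ∅ (Al.empty_right A)]
      simp [zN]
    have h2 : tot (y - tot u) A ∅ = cobd (fun A => (y - tot u) A ∅) A := by
      simp [tot, cobd]
    by_cases hk : A.card = k
    · rw [← h1, h2]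
      unfold cobd
      refine Finset.sum_congr rfl fun i hi => ?_
      congr 1
      have hc : (A.erase i).card + 1 = k := by
        rw [Finset.card_erase_add_one hi, hk]
      by_cases hN : NSet gens F (A.erase i)
      · simp only [hη]
        rw [if_pos ⟨hc, hN⟩]
      · simp only [hη]
        rw [if_neg (fun h => hN h.2), Pi.sub_apply, Pi.sub_apply,
          hu _ _ (Al.empty_right _) hN, sub_self]
    · have hγ : γ A = 0 := by
        by_contra hne
        exact hk (h.1 A hne).1
      rw [hγ]
      symm
      unfold cobd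
      refine Finset.sum_eq_zero fun i hi => ?_
      have hc : ¬ (A.erase i).card + 1 = k := by
        rw [Finset.card_erase_add_one hi]
        exact hk
      simp only [hη]
      rw [if_neg (fun h => hc h.1), smul_zero]

lemma BE_of_cor [Nonempty ι] {k : ℕ} {e : Finset κ → W} (h : ZE gens F k e)
    (hc : Cor gens F (0 : Finset ι → W) e) : BE gens F k e := by
  classical
  obtain ⟨y, hy⟩ := hc
  have hy1 : ∀ A G, Al gens F A G → tot (-y) A G = zE e A G := by
    intro A G hA
    rw [tot_neg, Pi.neg_apply, Pi.neg_apply, ← hy A G hA]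
    simp [zE]
  obtain ⟨u, hu⟩ := rows (gens := gens) (F := F) (-y) (fun A G hA hN => by
    rw [hy1 A G hA]
    unfold zE
    split_ifs
    · by_contra hne
      obtain ⟨j, hj⟩ := hN
      exact (h.1 G hne).2.2 j hj
    · rfl)
  set η : Finset κ → W := fun G =>
    if G.card + 1 = k ∧ ESet gens F G then (-y - tot u) ∅ G else 0 with hη
  refine ⟨η, ?_, ?_⟩
  · intro A hA
    by_contra hne
    exact hA (by simp only [hη, if_neg hne])
  · intro G hG
    have h1 : tot (-y - tot u) ∅ G = e G := by
      rw [tot_sub, tot_tot, sub_zero, hy1 ∅ G (Al.empty_left hG)]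
      simp [zE]
    have h2 : tot (-y - tot u) (∅ : Finset ι) G = cobd ((-y - tot u) ∅) G := by
      simp [tot, cobd, par]
    by_cases hk : G.card = k
    · rw [← h1, h2]
      unfold cobd
      refine Finset.sum_congr rfl fun i hi => ?_
      congr 1
      have hc : (G.erase i).card + 1 = k := by
        rw [Finset.card_erase_add_one hi, hk]
      have hGi : G.erase i ⊆ F := (Finset.erase_subset _ _).trans hG
      by_cases hN : ESet gens F (G.erase i)
      · simp only [hη]
        rw [if_pos ⟨hc, hN⟩]
      · simp only [hη]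
        have hj : ∃ j, Disjoint (gens j) (G.erase i) := by
          by_contra hcon
          exact hN ⟨hGi, fun j hj => hcon ⟨j, hj⟩⟩
        rw [if_neg (fun h => hN h.2), Pi.sub_apply, Pi.sub_apply,
          hu _ _ (Al.empty_left hGi) hj, sub_self]
    · have hγ : e G = 0 := by
        by_contra hne
        exact hk (h.1 G hne).1
      rw [hγ]
      symm
      unfold cobd
      refine Finset.sum_eq_zero fun i hi => ?_
      have hc : ¬ (G.erase i).card + 1 = k := by
        rw [Finset.card_erase_add_one hi]
        exact hk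
      simp only [hη]
      rw [if_neg (fun h => hc h.1), smul_zero]

lemma cor_of_BN {k : ℕ} {γ : Finset ι → W} (h : BN gens F k γ) :
    Cor gens F γ (0 : Finset κ → W) := by
  obtain ⟨η, h1, rfl⟩ := h
  refine ⟨zN η, fun A G hA => ?_⟩
  rw [tot_zN (fun A hA => (h1 A hA).2) A G hA]
  simp [zN]

lemma cor_of_BE {k : ℕ} {e : Finset κ → W} (h : BE gens F k e) :
    Cor gens F (0 : Finset ι → W) e := by
  obtain ⟨η, h1, h2⟩ := h
  refine ⟨-zE η, fun A G hA => ?_⟩
  rw [tot_neg, Pi.neg_apply, Pi.neg_apply, tot_zE (fun A hA => (h1 A hA).2) A G hA]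
  simp only [zE, Pi.zero_apply, ite_self, zero_sub]
  split_ifs with hA'
  · rw [h2 G hA.1]
  · rfl

end

end nerve

end Pool.Agent.Helper7.LY
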