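import Pool.Agent.Helper7.LY.Homol
import Pool.Agent.Helper7.LY.Mixed

/-!
The number of elements of the socle for the Klein bottle.
-/

set_option autoImplicit false

namespace Pool.Agent.Helper7.LY

lemma soc_klein {K : Type} [AddCommGroup K] (Λ0 : AddSubgroup K)
    (htor : ∀ w : K, ∃ N : ℕ, (2 : ℤ) ^ N • w ∈ Λ0) {R2 : Type} (ρ : R2 → K ⧸ Λ0)
    (hρ : ∀ w : K ⧸ Λ0, ∃! s, ∃ v : K ⧸ Λ0, w - ρ s = (2 : ℤ) • v) :
    ∃ β : ({w : K ⧸ Λ0 // (2 : ℤ) • w = 0} × R2) → Finset (Fin 21) → (Fin 8 → ℤ) → K,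
      (∀ j, Soc Λ0 kgens 6 (β j)) ∧
      ∀ b, Soc Λ0 kgens 6 b → ∃! j, b - β j ∈ Bc Λ0 kgens 6 := by
  obtain ⟨γ, h1, h2, h3⟩ := transport (ι := Fin 21) (gens := kgens) (F := Finset.univ) (k := 6)
    (fun j : {w : K ⧸ Λ0 // (2 : ℤ) • w = 0} × R2 => cls j.1.1 (ρ j.2))
    (fun j => cls_ZE _ _) (fun j => cls_two _ _ j.1.2) (classify ρ hρ)
  exact soc_class htor γ h1 h2 h3 fun v z hz => transport_zero (star_exact v) z hz

lemma card_equal : Nat.card (TT (ZMod 2) 8 (CechH (xE kgens) 6)) = 4 := by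
  have h2 : ∀ w : ZMod 2 ⧸ (⊥ : AddSubgroup (ZMod 2)), (2 : ℤ) • w = 0 := by
    intro w
    obtain ⟨a, rfl⟩ := QuotientAddGroup.mk_surjective w
    rw [← QuotientAddGroup.mk_zsmul]
    have : (2 : ℤ) • a = 0 := by
      revert a
      decide
    rw [this]
    rfl
  obtain ⟨β, h1, h3⟩ := soc_klein (⊥ : AddSubgroup (ZMod 2))
    (fun w => ⟨1, by
      rw [AddSubgroup.mem_bot]
      revert w
      decide⟩) (R2 := ZMod 2 ⧸ (⊥ : AddSubgroup (ZMod 2))) id (fun w => by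
      refine ⟨w, ⟨0, by simp⟩, ?_⟩
      rintro s ⟨v, hv⟩
      rw [h2, id, sub_eq_zero] at hv
      exact hv.symm)
  rw [count_equal kgens 5 β h1 h3, Nat.card_prod]
  have hW : Nat.card (ZMod 2 ⧸ (⊥ : AddSubgroup (ZMod 2))) = 2 := by
    rw [Nat.card_congr (QuotientAddGroup.quotientBot (G := ZMod 2)).toEquiv]
    simp
  have hV : Nat.card {w : ZMod 2 ⧸ (⊥ : AddSubgroup (ZMod 2)) // (2 : ℤ) • w = 0} = 2 := by
    rw [Nat.card_congr (Equiv.subtypeUnivEquiv h2), hW]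
  rw [hW, hV]

lemma mem_Z2 (w : ℚ_[2]) : w ∈ Z2 ↔ ‖w‖ ≤ 1 := by
  constructor
  · rintro ⟨a, rfl⟩
    exact a.2
  · intro h
    exact ⟨⟨w, h⟩, rfl⟩

lemma tor_Z2 (w : ℚ_[2]) : ∃ N : ℕ, (2 : ℤ) ^ N • w ∈ Z2 := by
  have h1 : ‖(2 : ℚ_[2])‖ < 1 := by
    have := Padic.norm_p_lt_one (p := 2)
    exact_mod_cast this
  obtain ⟨N, hN⟩ := exists_pow_lt_of_lt_one (show (0 : ℝ) < (‖w‖ + 1)⁻¹ by positivity) h1
  refine ⟨N, ?_⟩
  rw [mem_Z2, zsmul_eq_mul]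
  push_cast
  rw [norm_mul, norm_pow]
  have h2 : ‖(2 : ℚ_[2])‖ ^ N * ‖w‖ ≤ (‖w‖ + 1)⁻¹ * (‖w‖ + 1) := by
    gcongr
    linarith
  rwa [inv_mul_cancel₀ (by positivity)] at h2

lemma card_two_torsion : Nat.card {w : ℚ_[2] ⧸ Z2 // (2 : ℤ) • w = 0} = 2 := by
  rw [Nat.card_eq_two_iff]
  have h2 : (2 : ℤ) • (((1 / 2 : ℚ_[2]) : ℚ_[2] ⧸ Z2)) = 0 := by
    rw [← QuotientAddGroup.mk_zsmul, QuotientAddGroup.eq_zero_iff, mem_Z2, zsmul_eq_mul]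
    push_cast
    norm_num
  refine ⟨⟨0, smul_zero _⟩, ⟨((1 / 2 : ℚ_[2]) : ℚ_[2] ⧸ Z2), h2⟩, ?_, ?_⟩
  · intro h
    have h3 := Subtype.ext_iff.1 h
    change (0 : ℚ_[2] ⧸ Z2) = _ at h3
    have h4 := (QuotientAddGroup.eq_zero_iff _).1 h3.symm
    rw [mem_Z2, norm_div, norm_one] at h4
    have h1 : ‖(2 : ℚ_[2])‖ = 2⁻¹ := by
      have := Padic.norm_p (p := 2)
      exact_mod_cast this
    rw [h1] at h4
    norm_num at h4
  · rw [Set.eq_univ_iff_forall]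
    rintro ⟨w, hw⟩
    obtain ⟨a, rfl⟩ := QuotientAddGroup.mk_surjective w
    rw [← QuotientAddGroup.mk_zsmul, QuotientAddGroup.eq_zero_iff] at hw
    obtain ⟨z, hz⟩ := hw
    obtain ⟨m, hm, hzm⟩ := PadicInt.exists_mem_range (p := 2) z
    rw [PadicInt.maximalIdeal_eq_span_p, Ideal.mem_span_singleton] at hzm
    obtain ⟨t, ht⟩ := hzm
    have h5 : (a : ℚ_[2]) - (m : ℚ_[2]) / 2 = (t : ℚ_[2]) := by
      have h6 : ((z - (m : ℤ_[2]) : ℤ_[2]) : ℚ_[2]) = (((2 : ℕ) : ℤ_[2]) * t : ℤ_[2]) := by rw [ht]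
      have h7 : (z : ℚ_[2]) = (2 : ℤ) • a := hz
      rw [PadicInt.coe_sub, PadicInt.coe_mul, PadicInt.coe_natCast, PadicInt.coe_natCast, h7,
        zsmul_eq_mul] at h6
      push_cast at h6
      field_simp
      linear_combination h6
    have h6 : ((a : ℚ_[2]) : ℚ_[2] ⧸ Z2) = (((m : ℚ_[2]) / 2 : ℚ_[2]) : ℚ_[2] ⧸ Z2) := by
      rw [← sub_eq_zero, ← QuotientAddGroup.mk_sub, h5, QuotientAddGroup.eq_zero_iff]
      exact ⟨t, rfl⟩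
    interval_cases m
    · left
      apply Subtype.ext
      change ((a : ℚ_[2]) : ℚ_[2] ⧸ Z2) = 0
      rw [h6]
      simp
    · right
      apply Subtype.ext
      change ((a : ℚ_[2]) : ℚ_[2] ⧸ Z2) = _
      rw [h6]
      simp

lemma card_mixed : Nat.card (TT ℤ_[2] 8 (CechH (yM kgens) 7)) = 2 := by
  obtain ⟨β, h1, h3⟩ := soc_klein Z2 tor_Z2 (R2 := Unit) (fun _ => 0) (fun w => by
      refine ⟨(), ?_, fun _ _ => rfl⟩
      obtain ⟨a, rfl⟩ := QuotientAddGroup.mk_surjective w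
      refine ⟨((a / 2 : ℚ_[2]) : ℚ_[2] ⧸ Z2), ?_⟩
      rw [sub_zero, ← QuotientAddGroup.mk_zsmul]
      congr 1
      rw [zsmul_eq_mul]
      push_cast
      field_simp)
  rw [count_mixed kgens 6 β h1 h3, Nat.card_prod, card_two_torsion]
  simp

end Pool.Agent.Helper7.LY
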