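import Pool.Agent.Helper7.LY.Cech

/-!
Power series rings over regular local rings.
-/

set_option autoImplicit false

namespace Pool.Agent.Helper7.LY

open IsLocalRing

section PS

variable {R : Type} [CommRing R]

lemma regular_powerSeries [IsRegularLocalRing R] :
    IsRegularLocalRing (PowerSeries R) ∧
      ringKrullDim (PowerSeries R) = ringKrullDim R + 1 := by
  have hloc : IsLocalRing (PowerSeries R) := inferInstance
  have h1 : ringKrullDim R + 1 ≤ ringKrullDim (PowerSeries R) :=
    ringKrullDim_succ_le_ringKrullDim_powerseries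
  have hX : (PowerSeries.X : PowerSeries R) ∈ maximalIdeal (PowerSeries R) := by
    rw [mem_maximalIdeal, mem_nonunits_iff]
    intro h
    have := h.map PowerSeries.constantCoeff
    rw [PowerSeries.constantCoeff_X] at this
    exact not_isUnit_zero this
  have hmap : (maximalIdeal (PowerSeries R)).map PowerSeries.constantCoeff = maximalIdeal R :=
    map_maximalIdeal_of_surjective (f := (PowerSeries.constantCoeff : PowerSeries R →+* R))
      PowerSeries.constantCoeff_surj
  have h2 : (maximalIdeal (PowerSeries R)).spanFinrank ≤ (maximalIdeal R).spanFinrank + 1 := by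
    have := PowerSeries.spanFinrank_le_spanFinrank_map_constantCoeff_add_one_of_X_mem hX
    rwa [hmap] at this
  have h3 : ((maximalIdeal (PowerSeries R)).spanFinrank : WithBot ℕ∞) ≤ ringKrullDim R + 1 := by
    rw [← IsRegularLocalRing.spanFinrank_maximalIdeal (R := R)]
    exact_mod_cast h2
  refine ⟨IsRegularLocalRing.of_spanFinrank_maximalIdeal_le _ (h3.trans h1), le_antisymm ?_ h1⟩
  exact (ringKrullDim_le_spanFinrank_maximalIdeal _).trans h3

lemma regular_mvPowerSeries [IsRegularLocalRing R] (n : ℕ) :
    IsRegularLocalRing (MvPowerSeries (Fin n) R) ∧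
      ringKrullDim (MvPowerSeries (Fin n) R) = ringKrullDim R + n := by
  induction n with
  | zero =>
    refine ⟨IsRegularLocalRing.of_ringEquiv
      (MvPowerSeries.isEmptyEquiv (Fin 0) R).toRingEquiv.symm, ?_⟩
    rw [ringKrullDim_eq_of_ringEquiv (MvPowerSeries.isEmptyEquiv (Fin 0) R).toRingEquiv]
    simp
  | succ n ih =>
    obtain ⟨h1, h2⟩ := ih
    obtain ⟨h3, h4⟩ := regular_powerSeries (R := MvPowerSeries (Fin n) R)
    refine ⟨IsRegularLocalRing.of_ringEquiv (MvPowerSeries.finSuccEquiv R n).toRingEquiv.symm, ?_⟩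
    rw [ringKrullDim_eq_of_ringEquiv (MvPowerSeries.finSuccEquiv R n).toRingEquiv, h4, h2]
    push_cast
    ring

lemma mem_span_X : ∀ {n : ℕ} (g : MvPowerSeries (Fin n) R),
    MvPowerSeries.constantCoeff g = 0 →
      g ∈ Ideal.span (Set.range (MvPowerSeries.X : Fin n → MvPowerSeries (Fin n) R)) := by
  intro n
  induction n with
  | zero =>
    intro g hg
    have : g = 0 := by
      ext d
      rw [Subsingleton.elim d 0]
      exact hg
    rw [this]
    exact Ideal.zero_mem _
  | succ n ih =>
    intro g hg
    set e := MvPowerSeries.finSuccEquiv R n with he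
    have h1 : MvPowerSeries.constantCoeff (PowerSeries.constantCoeff (e g)) = 0 := by
      have h := MvPowerSeries.coeff_coeff_finSuccEquiv (R := R) g (k := 0) (x := (0 : Fin n →₀ ℕ))
      rw [Finsupp.cons_zero_zero] at h
      rw [← PowerSeries.coeff_zero_eq_constantCoeff_apply,
        ← MvPowerSeries.coeff_zero_eq_constantCoeff_apply, h,
        MvPowerSeries.coeff_zero_eq_constantCoeff_apply, hg]
    have h2 := ih _ h1
    have h3 : g = e.symm (PowerSeries.mk fun p => PowerSeries.coeff (p + 1) (e g)) *
        MvPowerSeries.X 0 + e.symm (PowerSeries.C (PowerSeries.constantCoeff (e g))) := by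
      apply e.injective
      rw [map_add, map_mul, AlgEquiv.apply_symm_apply, AlgEquiv.apply_symm_apply, he,
        MvPowerSeries.finSuccEquiv_X_zero, ← he]
      exact PowerSeries.eq_shift_mul_X_add_const _
    rw [h3]
    refine Ideal.add_mem _ (Ideal.mul_mem_left _ _ (Ideal.subset_span ⟨0, rfl⟩)) ?_
    have h4 : Ideal.map ((e.symm : PowerSeries (MvPowerSeries (Fin n) R) ≃+*
        MvPowerSeries (Fin (n + 1)) R).toRingHom.comp PowerSeries.C)
        (Ideal.span (Set.range (MvPowerSeries.X : Fin n → MvPowerSeries (Fin n) R))) ≤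
        Ideal.span (Set.range (MvPowerSeries.X : Fin (n + 1) → MvPowerSeries (Fin (n + 1)) R)) := by
      rw [Ideal.map_span, Ideal.span_le]
      rintro _ ⟨_, ⟨j, rfl⟩, rfl⟩
      refine Ideal.subset_span ⟨j.succ, ?_⟩
      apply e.injective
      change e _ = e (e.symm (PowerSeries.C (MvPowerSeries.X j)))
      rw [AlgEquiv.apply_symm_apply]
      exact MvPowerSeries.finSuccEquiv_X_succ j
    exact h4 (Ideal.mem_map_of_mem _ h2)

variable [IsLocalRing R]

lemma mem_max_iff {n : ℕ} (g : MvPowerSeries (Fin n) R) :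
    g ∈ maximalIdeal (MvPowerSeries (Fin n) R) ↔
      MvPowerSeries.constantCoeff g ∈ maximalIdeal R := by
  rw [mem_maximalIdeal, mem_nonunits_iff, mem_maximalIdeal, mem_nonunits_iff,
    MvPowerSeries.isUnit_iff_constantCoeff]

lemma maximalIdeal_eq {n : ℕ} (h : maximalIdeal R = Ideal.span {2}) :
    maximalIdeal (MvPowerSeries (Fin n) R) = Ideal.span ({2} ∪ Set.range MvPowerSeries.X) := by
  apply le_antisymm
  · intro g hg
    rw [mem_max_iff, h, Ideal.mem_span_singleton] at hg
    obtain ⟨c, hc⟩ := hg
    have h1 : g = (g - 2 * MvPowerSeries.C c) + 2 * MvPowerSeries.C c := by ring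
    rw [h1, Ideal.span_union]
    refine Ideal.add_mem _ (Submodule.mem_sup_right (mem_span_X _ ?_))
      (Submodule.mem_sup_left ?_)
    · rw [map_sub, hc, map_mul, map_ofNat, MvPowerSeries.constantCoeff_C, sub_self]
    · exact Ideal.mul_mem_right _ _ (Ideal.subset_span rfl)
  · rw [Ideal.span_le]
    rintro g (rfl | ⟨i, rfl⟩)
    · rw [SetLike.mem_coe, mem_max_iff, map_ofNat, h]
      exact Ideal.subset_span rfl
    · rw [SetLike.mem_coe, mem_max_iff, MvPowerSeries.constantCoeff_X]
      exact Ideal.zero_mem _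

/-- The elements killed by the maximal ideal. -/
lemma killed_iff {n : ℕ} (h : maximalIdeal R = Ideal.span {2}) {H : Type} [AddCommGroup H]
    [Module (MvPowerSeries (Fin n) R) H] (y : H) :
    (∀ a ∈ maximalIdeal (MvPowerSeries (Fin n) R), a • y = 0) ↔
      (2 : MvPowerSeries (Fin n) R) • y = 0 ∧
        ∀ i : Fin n, (MvPowerSeries.X i : MvPowerSeries (Fin n) R) • y = 0 := by
  rw [maximalIdeal_eq h]
  constructor
  · intro H
    exact ⟨H _ (Ideal.subset_span (Or.inl rfl)), fun i => H _ (Ideal.subset_span (Or.inr ⟨i, rfl⟩))⟩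
  · rintro ⟨h1, h2⟩ a ha
    have h3 : Ideal.span ({2} ∪ Set.range MvPowerSeries.X) ≤
        LinearMap.ker (LinearMap.toSpanSingleton (MvPowerSeries (Fin n) R) H y) := by
      rw [Ideal.span_le]
      rintro g (rfl | ⟨i, rfl⟩)
      · exact h1
      · exact h2 i
    exact h3 ha

end PS

section length

open CategoryTheory

variable {S : Type} [CommRing S] [IsLocalRing S] {H : Type} [AddCommGroup H] [Module S H]

/-- Homomorphisms from the residue field. -/
noncomputable def homResEquiv : (ResidueField S →ₗ[S] H) ≃ {h : H // ∀ a ∈ maximalIdeal S, a • h = 0} where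
  toFun f := ⟨f 1, fun a ha => by
    rw [← map_smul, Algebra.smul_def, ResidueField.algebraMap_eq, (residue_eq_zero_iff a).2 ha,
      zero_mul, map_zero]⟩
  invFun h := Submodule.liftQ (maximalIdeal S) (LinearMap.toSpanSingleton S H h.1) h.2
  left_inv f := by
    apply LinearMap.ext
    intro x
    obtain ⟨a, rfl⟩ := residue_surjective x
    change a • f 1 = f (residue S a)
    rw [← map_smul, Algebra.smul_def, ResidueField.algebraMap_eq, mul_one]
  right_inv h := by
    apply Subtype.ext
    change (1 : S) • h.1 = h.1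
    rw [one_smul]

lemma length_hom (hK : Nat.card (ResidueField S) = 2) (d : ℕ)
    (hc : Nat.card {h : H // ∀ a ∈ maximalIdeal S, a • h = 0} = 2 ^ d) :
    Module.length S (ResidueField S →ₗ[S] H) = d := by
  rw [← Nat.card_congr homResEquiv] at hc
  have htor : Module.IsTorsionBySet S (ResidueField S →ₗ[S] H) (maximalIdeal S) := by
    rintro f ⟨a, ha⟩
    apply LinearMap.ext
    intro x
    change a • f x = 0
    rw [← map_smul, Algebra.smul_def, ResidueField.algebraMap_eq, (residue_eq_zero_iff a).2 ha,
      zero_mul, map_zero]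
  let _ : Field (S ⧸ maximalIdeal S) := Ideal.Quotient.field _
  let _ : Module (S ⧸ maximalIdeal S) (ResidueField S →ₗ[S] H) := htor.module
  have : IsScalarTower S (S ⧸ maximalIdeal S) (ResidueField S →ₗ[S] H) :=
    htor.isScalarTower (S := S)
  rw [Module.length_eq_of_surjective (R := S ⧸ maximalIdeal S) Ideal.Quotient.mk_surjective]
  have hfin : Finite (ResidueField S →ₗ[S] H) := by
    apply Nat.finite_of_card_ne_zero
    rw [hc]
    positivity
  have hfin' : Module.Finite (S ⧸ maximalIdeal S) (ResidueField S →ₗ[S] H) := inferInstance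
  rw [Module.length_eq_finrank]
  have h1 := Module.natCard_eq_pow_finrank (K := S ⧸ maximalIdeal S)
    (V := ResidueField S →ₗ[S] H)
  rw [hc] at h1
  change _ = Nat.card (ResidueField S) ^ _ at h1
  rw [hK] at h1
  rw [Nat.pow_right_injective (le_refl 2) h1]

lemma length_ext (hK : Nat.card (ResidueField S) = 2) (d : ℕ)
    (hc : Nat.card {h : H // ∀ a ∈ maximalIdeal S, a • h = 0} = 2 ^ d) :
    Module.length S (Abelian.Ext (ModuleCat.of S (ResidueField S)) (ModuleCat.of S H) 0) = d := by
  rw [← length_hom hK d hc]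
  exact (Abelian.Ext.linearEquiv₀.trans ModuleCat.homLinearEquiv).length_eq

/-- The length, in terms of the first description of the complex. -/
lemma extLength_eq {r : ℕ} (x : Fin r → S) (k : ℕ) (hK : Nat.card (ResidueField S) = 2) (d : ℕ)
    (hc : Nat.card {h : CechH x k // ∀ a ∈ maximalIdeal S, a • h = 0} = 2 ^ d) :
    extLength x 0 k = d := by
  refine length_ext (H := LocCoh x k) hK d ?_
  rw [← hc]
  refine Nat.card_congr ((locCohEquiv x k).toEquiv.subtypeEquiv fun y => ?_)
  refine forall₂_congr fun a _ => ?_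
  change _ ↔ a • (locCohEquiv x k) y = 0
  rw [← map_smul, LinearEquiv.map_eq_zero_iff]

end length

end Pool.Agent.Helper7.LY
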