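import Pool.Agent.Helper7.LY.Alg

/-!
Transfer of Cech cochains to functions.
-/

set_option autoImplicit false
set_option linter.unusedSectionVars false

namespace Pool.Agent.Helper7.LY

section trans

variable {n R : ℕ} {Λ K : Type} [CommRing Λ] [Field K] [Algebra Λ K]
  {y : Fin R → MvPowerSeries (Fin n) Λ} {E : Finset (Fin R) → (Fin n →₀ ℕ)}
  {U : Finset (Fin R) → K} (hM : ∀ A, Mono (∏ j ∈ A, y j) (E A) (U A))

/-- The coefficients. -/
noncomputable def cf (A : Finset (Fin R)) : Loc y A →+ ((Fin n → ℤ) → K) where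
  toFun l := (phiLoc (hM A).isUnit l).coeff
  map_zero' := by
    rw [map_zero]
    rfl
  map_add' a b := by
    rw [map_add]
    rfl

lemma cf_apply (A : Finset (Fin R)) (l : Loc y A) : cf hM A l = (phiLoc (hM A).isUnit l).coeff :=
  rfl

lemma cf_res {A B : Finset (Fin R)} (h : A ⊆ B) (l : Loc y A) :
    cf hM B (res y h l) = cf hM A l := by
  rw [cf_apply, cf_apply]
  congr 1
  have : (phiLoc (hM B).isUnit).comp (res y h : Loc y A →ₐ[_] Loc y B).toRingHom =
      phiLoc (hM A).isUnit := by
    apply IsLocalization.ringHom_ext (Submonoid.powers (∏ j ∈ A, y j))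
    ext1 s
    simp only [RingHom.comp_apply, AlgHom.toRingHom_eq_coe, RingHom.coe_coe, AlgHom.commutes,
      phiLoc_algebraMap]
  exact congrFun (congrArg DFunLike.coe this) l

lemma cf_injective (hK : Function.Injective (algebraMap Λ K)) (A : Finset (Fin R)) :
    Function.Injective (cf hM A) := by
  intro l l' h
  apply phiLoc_injective hK (hM A).isUnit
  ext1
  exact h

lemma cf_smul_X (A : Finset (Fin R)) (i : Fin n) (l : Loc y A) (a : Fin n → ℤ) :
    cf hM A ((MvPowerSeries.X i : MvPowerSeries (Fin n) Λ) • l) a =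
      cf hM A l (a - Pi.single i 1) := by
  rw [cf_apply, cf_apply, phiLoc_smul]
  have : phi Λ K (MvPowerSeries.X i) = HahnSeries.single (Pi.single i 1) 1 := by
    rw [MvPowerSeries.X, phi_monomial, map_one]
    congr 2
    funext j
    rw [expo_apply]
    by_cases hj : j = i
    · subst hj
      simp
    · simp [Finsupp.single_apply, Ne.symm hj, hj]
  rw [this, HahnSeries.coeff_single_mul, one_mul]

/-- The function attached to a cochain. -/
noncomputable def Bmap (k : ℕ) : Cochain y k →+ (Finset (Fin R) → (Fin n → ℤ) → K) where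
  toFun c A := if h : A.card = k then cf hM A (c ⟨A, h⟩) else 0
  map_zero' := by
    funext A
    split_ifs
    · rw [Pi.zero_apply, map_zero]
      rfl
    · rfl
  map_add' c c' := by
    funext A
    rw [Pi.add_apply]
    split_ifs
    · rw [Pi.add_apply, map_add]
    · rw [add_zero]

lemma Bmap_apply (k : ℕ) (c : Cochain y k) (A : Finset (Fin R)) (h : A.card = k) :
    Bmap hM k c A = cf hM A (c ⟨A, h⟩) := dif_pos h

lemma Bmap_apply_ne (k : ℕ) (c : Cochain y k) (A : Finset (Fin R)) (h : A.card ≠ k) :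
    Bmap hM k c A = 0 := dif_neg h

lemma Bmap_injective (hK : Function.Injective (algebraMap Λ K)) (k : ℕ) :
    Function.Injective (Bmap hM k) := by
  intro c c' h
  funext ⟨A, hA⟩
  apply cf_injective hM hK A
  rw [← Bmap_apply hM k c A hA, ← Bmap_apply hM k c' A hA, h]

lemma Bmap_surj (k : ℕ) (β : Finset (Fin R) → (Fin n → ℤ) → K)
    (h : ∀ A, A.card = k → ∃ l, cf hM A l = β A) (h' : ∀ A, A.card ≠ k → β A = 0) :
    ∃ c, Bmap hM k c = β := by
  choose g hg using h
  refine ⟨fun A => g A.1 A.2, ?_⟩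
  funext A
  by_cases hA : A.card = k
  · rw [Bmap_apply hM k _ A hA]
    exact hg A hA
  · rw [Bmap_apply_ne hM k _ A hA, h' A hA]

lemma Bmap_cechD (k : ℕ) (c : Cochain y k) :
    Bmap hM (k + 1) (cechD y k c) = cobd (Bmap hM k c) := by
  funext B
  by_cases hB : B.card = k + 1
  · rw [Bmap_apply hM (k + 1) _ B hB]
    unfold cechD cobd
    rw [LinearMap.pi_apply]
    simp only [LinearMap.sum_apply, LinearMap.smul_apply, map_sum, map_zsmul]
    rw [← Finset.sum_coe_sort B]
    refine Finset.sum_congr rfl fun i _ => ?_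
    have hi : (B.erase i.1).card = k := by
      rw [Finset.card_erase_of_mem i.2, hB]
      rfl
    rw [Bmap_apply hM k c _ hi]
    congr 1
    exact cf_res hM (Finset.erase_subset i.1 B) (c ⟨B.erase i.1, hi⟩)
  · rw [Bmap_apply_ne hM _ _ B hB]
    symm
    unfold cobd
    refine Finset.sum_eq_zero fun i hi => ?_
    rw [Bmap_apply_ne, smul_zero]
    intro h
    apply hB
    rw [← Finset.card_erase_add_one hi, h]

lemma Bmap_X (k : ℕ) (i : Fin n) (c : Cochain y k) :
    Bmap hM k ((MvPowerSeries.X i : MvPowerSeries (Fin n) Λ) • c) = shift i (Bmap hM k c) := by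
  funext A a
  unfold shift
  by_cases hA : A.card = k
  · rw [Bmap_apply hM k _ A hA, Bmap_apply hM k _ A hA]
    exact cf_smul_X hM A i _ a
  · rw [Bmap_apply_ne hM k _ A hA, Bmap_apply_ne hM k _ A hA]
    rfl

end trans

end Pool.Agent.Helper7.LY
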